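import Pool.Agent.Lib.MP_f80667_ag.Km.Pr
import Pool.Agent.Lib.MP_f80667_ag.Pe.Kl
import Pool.Agent.Lib.MP_f80667_ag.Pe.Ke

/-! The pull-back of cycles from the Kummer variety to the product: port of `Pe/Kl.lean`. -/

open ZC BE PE Polynomial CV

namespace KM

section pull

variable {F M : Type} [Field F] [Field M] [Algebra F M] {n : ℕ} [NeZero n] {f : Fin n → F[X]}
  {W : Fin n → WeierstrassCurve M} [∀ i, (W i).IsElliptic] {Ω : Type} [Field Ω] [CharZero Ω]
  [IsAlgClosed Ω] [Algebra F Ω] [Algebra M Ω] [IsScalarTower F M Ω]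

/-- A point above. -/
noncomputable def kpt (Q : ∀ i, Qm (f i) (W i)) (x : (Kum f).pt Ω) : ∀ i, Pt (W i) Ω :=
  (kpi_surj Q x).choose

theorem kpi_kpt (Q : ∀ i, Qm (f i) (W i)) (x : (Kum f).pt Ω) : kpi Q (kpt Q x) = knu x :=
  (kpi_surj Q x).choose_spec

/-- The pull-back of a point. -/
noncomputable def kpb (Q : ∀ i, Qm (f i) (W i)) (x : (Kum f).pt Ω) : (∀ i, Pt (W i) Ω) →₀ ℤ :=
  Finsupp.single (kpt Q x) 1 + Finsupp.single (fun i => -kpt Q x i) 1

theorem kpb_eq (Q : ∀ i, Qm (f i) (W i)) {x : (Kum f).pt Ω} {P : ∀ i, Pt (W i) Ω}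
    (h : kpi Q P = knu x) :
    kpb Q x = Finsupp.single P 1 + Finsupp.single (fun i => -P i) 1 := by
  rcases kpi_inj Q ((kpi_kpt Q x).trans h.symm) with e | e
  · rw [kpb, e]
  · rw [kpb, e]
    dsimp only
    have e1 : (fun i => - -P i) = P := funext fun i => neg_neg (P i)
    rw [e1, add_comm]

/-- The pull-back of cycles. -/
noncomputable def kpull (Q : ∀ i, Qm (f i) (W i)) :
    ((Kum f).pt Ω →₀ ℤ) →+ ((∀ i, Pt (W i) Ω) →₀ ℤ) :=
  Finsupp.liftAddHom fun x => zmultiplesHom _ (kpb Q x)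

theorem kpull_single (Q : ∀ i, Qm (f i) (W i)) (x : (Kum f).pt Ω) :
    kpull Q (Finsupp.single x 1) = kpb Q x := by
  rw [kpull, Finsupp.liftAddHom_apply_single, zmultiplesHom_apply, one_zsmul]

theorem kpull_push (Q : ∀ i, Qm (f i) (W i)) (z : (Kum f).pt Ω →₀ ℤ) :
    Finsupp.mapDomain (kpi Q) (kpull Q z) = 2 • Finsupp.mapDomain knu z := by
  have h : (Finsupp.mapDomain.addMonoidHom (M := ℤ) (kpi Q)).comp (kpull Q) =
      2 • Finsupp.mapDomain.addMonoidHom (M := ℤ) (knu : (Kum f).pt Ω → _) := by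
    ext x : 2
    change Finsupp.mapDomain (kpi Q) (kpull Q (Finsupp.single x 1)) =
      2 • Finsupp.mapDomain knu (Finsupp.single x 1)
    rw [kpull_single, kpb, Finsupp.mapDomain_add, Finsupp.mapDomain_single,
      Finsupp.mapDomain_single, Finsupp.mapDomain_single, kpi_neg, kpi_kpt, two_smul]
  exact DFunLike.congr_fun h z

theorem kpull_dg (Q : ∀ i, Qm (f i) (W i)) (z : (Kum f).pt Ω →₀ ℤ) :
    dg (kpull Q z) = 2 * dg z := by
  have h : (dg : ((∀ i, Pt (W i) Ω) →₀ ℤ) →+ ℤ).comp (kpull Q) = 2 • dg := by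
    ext x : 2
    change dg (kpull Q (Finsupp.single x 1)) = 2 • dg (Finsupp.single x 1)
    rw [kpull_single, kpb, map_add, sib_dg_single, sib_dg_single, sib_dg_single]
    rfl
  have h1 := DFunLike.congr_fun h z
  refine Eq.trans h1 ?_
  change 2 • dg z = 2 * dg z
  rw [nsmul_eq_mul]
  rfl

theorem kpull_pr (Q : ∀ i, Qm (f i) (W i)) (i : Fin n) (z : (Kum f).pt Ω →₀ ℤ) :
    sm (Finsupp.mapDomain (fun P : ∀ i, Pt (W i) Ω => P i) (kpull Q z)) = 0 := by
  have h : (sm : (Pt (W i) Ω →₀ ℤ) →+ Pt (W i) Ω).comp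
      ((Finsupp.mapDomain.addMonoidHom (M := ℤ) fun P : ∀ i, Pt (W i) Ω => P i).comp
        (kpull Q)) = 0 := by
    ext x : 2
    change sm (Finsupp.mapDomain (fun P : ∀ i, Pt (W i) Ω => P i)
      (kpull Q (Finsupp.single x 1))) = 0
    rw [kpull_single, kpb, Finsupp.mapDomain_add, Finsupp.mapDomain_single,
      Finsupp.mapDomain_single, map_add, sm, Finsupp.liftAddHom_apply_single,
      Finsupp.liftAddHom_apply_single, zmultiplesHom_apply, zmultiplesHom_apply, one_zsmul,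
      one_zsmul, add_neg_cancel]
  exact DFunLike.congr_fun h z

end pull

section act

variable {F M : Type} [Field F] [Field M] [Algebra F M] {n : ℕ} [NeZero n] {f : Fin n → F[X]}
  {W : Fin n → WeierstrassCurve M} [∀ i, (W i).IsElliptic] {K : Type} [Field K] [CharZero K]
  [Algebra F K] [Algebra M K] [IsScalarTower F M K] {Ω : Type} [Field Ω] [CharZero Ω]
  [IsAlgClosed Ω] [Algebra K Ω] [Algebra F Ω] [Algebra M Ω] [IsScalarTower F K Ω]
  [IsScalarTower M K Ω] [IsScalarTower F M Ω]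

/-- The points above are moved by the Galois group. Proof: as `kpull_act` (`Pe/Kl.lean`). -/
theorem kpull_act (Q : ∀ i, Qm (f i) (W i)) (σ : Ω ≃ₐ[K] Ω) (z : (Kum f).pt Ω →₀ ℤ) :
    kpull Q (Finsupp.mapDomain ((Kum f).act σ) z) =
      Finsupp.mapDomain ((Vpi fun i => Ev (W i)).act σ) (kpull Q z) := by
  have h : (kpull Q).comp (Finsupp.mapDomain.addMonoidHom (M := ℤ) ((Kum f).act σ)) =
      (Finsupp.mapDomain.addMonoidHom (M := ℤ) ((Vpi fun i => Ev (W i)).act σ)).comp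
        (kpull Q) := by
    ext x : 2
    change kpull Q (Finsupp.mapDomain ((Kum f).act σ) (Finsupp.single x 1)) =
      Finsupp.mapDomain ((Vpi fun i => Ev (W i)).act σ) (kpull Q (Finsupp.single x 1))
    rw [Finsupp.mapDomain_single, kpull_single, kpull_single]
    have h1 : kpi Q ((Vpi fun i => Ev (W i)).act σ (kpt Q x)) = knu ((Kum f).act σ x) := by
      have h2 := kpi_map Q (σ.restrictScalars M : Ω →ₐ[M] Ω) (kpt Q x)
      rw [kpi_kpt] at h2
      refine Eq.trans h2.symm ?_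
      exact (knu_map (σ.restrictScalars F : Ω →ₐ[F] Ω) x).symm
    have h3 := kpb_eq Q h1
    refine h3.trans ?_
    rw [kpb]
    have h4 : ∀ P P' : ∀ i, Pt (W i) Ω, Finsupp.mapDomain ((Vpi fun i => Ev (W i)).act σ)
        (Finsupp.single P 1 + Finsupp.single P' 1) =
        Finsupp.single ((Vpi fun i => Ev (W i)).act σ P) 1 +
          Finsupp.single ((Vpi fun i => Ev (W i)).act σ P') (1 : ℤ) := by
      intro P P'
      rw [← Finsupp.mapDomain_single (f := (Vpi fun i => Ev (W i)).act σ),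
        ← Finsupp.mapDomain_single (f := (Vpi fun i => Ev (W i)).act σ)]
      exact Finsupp.mapDomain_add
    refine Eq.trans ?_ (h4 _ _).symm
    congr 2
    exact funext fun i => (map_neg (Pt.map (W i) _) _).symm
  exact DFunLike.congr_fun h z

theorem kpull_mem (Q : ∀ i, Qm (f i) (W i)) {z : (Kum f).pt Ω →₀ ℤ}
    (hz : z ∈ (Kum f).D0 K Ω) :
    (kpull Q z : (∀ i, Pt (W i) Ω) →₀ ℤ) ∈ (Vpi fun i => Ev (W i)).D0 K Ω := by
  refine ⟨fun σ => ?_, ?_⟩
  · exact (kpull_act Q σ z).symm.trans (congrArg _ (hz.1 σ))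
  · have h1 : dg z = 0 := hz.2
    have h2 := kpull_dg Q z
    rw [h1, mul_zero] at h2
    exact h2

theorem kpi_mem (Q : ∀ i, Qm (f i) (W i)) {z : (∀ i, Pt (W i) Ω) →₀ ℤ}
    (hz : z ∈ (Vpi fun i => Ev (W i)).D0 K Ω) : Finsupp.mapDomain (kpi Q) z ∈ (Kum f).D0 K Ω := by
  refine ⟨fun σ => ?_, ?_⟩
  · let α : (∀ i, Pt (W i) Ω) → ∀ i, Pt (W i) Ω := (Vpi fun i => Ev (W i)).act σ
    have h0 : ∀ P : ∀ i, Pt (W i) Ω, (Kum f).act σ (kpi Q P) = kpi Q (α P) := fun P =>
      kpi_map Q (σ.restrictScalars M : Ω →ₐ[M] Ω) P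
    have h1 : (Kum f).act σ ∘ kpi Q = kpi Q ∘ α := funext h0
    have h2 : Finsupp.mapDomain α z = z := hz.1 σ
    rw [← Finsupp.mapDomain_comp, h1, Finsupp.mapDomain_comp, h2]
  · have h1 : dg z = 0 := hz.2
    have h2 := sib_dg_map (kpi Q) z
    rw [h1] at h2
    exact h2

end act

section main

variable {F M : Type} [Field F] [Field M] [Algebra F M] {n : ℕ} [NeZero n] {f : Fin n → F[X]}
  {W : Fin n → WeierstrassCurve M} [∀ i, (W i).IsElliptic] {K : Type} [Field K] [CharZero K]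
  [Algebra F K] [Algebra M K] [IsScalarTower F M K] {Ω : Type} [Field Ω] [Algebra K Ω]
  [Algebra F Ω] [Algebra M Ω] [IsScalarTower F K Ω] [IsScalarTower M K Ω] [IsScalarTower F M Ω]
  [IsAlgClosure K Ω]

private theorem pl_alg {G : Type} [AddCommGroup G] (z a w : G) (k : ℕ) :
    z - (2 * k + 1) • (z - k • w) = (2 * k) • (a - z) + -(k • (2 • a - (2 * k + 1) • w)) := by
  simp only [← natCast_zsmul]
  push_cast
  module

omit [Algebra F M] [NeZero n] [Algebra F K] [Algebra F Ω] [IsScalarTower F K Ω]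
  [IsScalarTower F M Ω] in
private theorem pl_abel {i : Fin n} {z : (∀ i, Pt (W i) Ω) →₀ ℤ}
    (hz : z ∈ (Vpi fun i => Ev (W i)).D0 K Ω)
    (hs : sm (Finsupp.mapDomain (fun P : ∀ i, Pt (W i) Ω => P i) z) = 0) :
    Finsupp.mapDomain ((pr (V := fun i => Ev (W i)) i).f Ω) z ∈ (Ev (W i)).ratEq K Ω := by
  have hO : IsAlgClosed Ω := IsAlgClosure.isAlgClosed K
  have h1 := (pr (V := fun i => Ev (W i)) i).D0 hz
  have hc : ∀ γ : Ω ≃ₐ[K] Ω, Finsupp.mapDomain (fun x => γ • x)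
      (Finsupp.mapDomain (fun P : ∀ i, Pt (W i) Ω => P i) z) =
      Finsupp.mapDomain (fun P : ∀ i, Pt (W i) Ω => P i) z := fun γ => h1.1 γ
  have hd : dg (Finsupp.mapDomain (fun P : ∀ i, Pt (W i) Ω => P i) z) = 0 := h1.2
  exact (AddSubgroup.closure_le _).2 (fun y hy => pv_ratEq_ev hy) (abel (K := K) _ hc hd hs)

/-- **From the product to the Kummer variety.** Proof: as `ks_X` (`Pe/Kl.lean`); the push-forwards of `kpull Q z` to the factors are rationally equivalent to `0` by `abel` (`kpull_pr`; as `pr_abel` in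
`Nf/Pr.lean`). -/
theorem ks_X (Q : ∀ i, Qm (f i) (W i)) {m : ℕ} (hm : Odd m)
    (h : DvG (fun i => Ev (W i)) K Ω m) : Dm (Kum f) K Ω m := by
  intro z hz
  have hO : IsAlgClosed Ω := IsAlgClosure.isAlgClosed K
  have hc : CharZero Ω := charZero_of_injective_algebraMap (algebraMap K Ω).injective
  obtain ⟨y, hy, hr⟩ : ∃ y : (∀ i, Pt (W i) Ω) →₀ ℤ, y ∈ (Vpi fun i => Ev (W i)).D0 K Ω ∧
      (kpull Q z - m • y : (∀ i, Pt (W i) Ω) →₀ ℤ) ∈ (Vpi fun i => Ev (W i)).ratEq K Ω := by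
    obtain ⟨y, hy, -, hr⟩ := h (kpull Q z) (kpull_mem Q hz)
      (fun i => pl_abel (kpull_mem Q hz) (kpull_pr Q i z))
    exact ⟨y, hy, hr⟩
  have h1 := kpi_ratEq Q hr
  have h2 : Finsupp.mapDomain (fun P : ∀ i, Pt (W i) Ω => kpi Q P) (kpull Q z - m • y) =
      2 • Finsupp.mapDomain knu z - m • Finsupp.mapDomain (fun P : ∀ i, Pt (W i) Ω => kpi Q P)
        y := by
    rw [← kpull_push Q z]
    have e := map_sub (Finsupp.mapDomain.addMonoidHom (M := ℤ)
      (fun P : ∀ i, Pt (W i) Ω => kpi (f := f) Q P)) (kpull Q z) (m • y)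
    rw [map_nsmul] at e
    exact e
  rw [h2] at h1
  have h3 := nu_ratEq hz.1
  obtain ⟨k, rfl⟩ := hm
  refine ⟨z - k • Finsupp.mapDomain (fun P : ∀ i, Pt (W i) Ω => kpi Q P) y,
    sub_mem hz (nsmul_mem (kpi_mem Q hy) k), ?_⟩
  have h4 := add_mem (nsmul_mem h3 (2 * k)) (neg_mem (nsmul_mem h1 k))
  rw [← pl_alg] at h4
  exact h4

/-- From an extension of degree prime to `m`. Proof: as `dvG_tr` (`Cv/Tc.lean`): `vtr`, `tr_ratEqV`, `vtr_res`, `vtr_D0`. -/
theorem dm_tr {V : Vr F} (hV : Fct V) (N : IntermediateField K Ω) [FiniteDimensional K N]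
    [IsScalarTower F N Ω] {m : ℕ} (hc : (Module.finrank K N).Coprime m) (h : Dm V N Ω m) :
    Dm V K Ω m := by
  intro z hz
  obtain ⟨z', hz', hr⟩ := h z (D0_res hz)
  set t := vtr hV K N z' with ht
  have h3 : t ∈ V.D0 K Ω := vtr_D0 hV N hz'
  have h1 : vtr hV K N (z - m • z') ∈ V.ratEq K Ω := tr_ratEqV hV N hr
  rw [map_sub, map_nsmul, vtr_res hV N hz.1] at h1
  have hb := Nat.gcd_eq_gcd_ab (Module.finrank K N) m
  rw [hc.gcd_eq_one, Nat.cast_one] at hb
  set a : ℤ := (Module.finrank K N).gcdA m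
  set b : ℤ := (Module.finrank K N).gcdB m
  refine ⟨a • t + b • z, AddSubgroup.add_mem _ (AddSubgroup.zsmul_mem _ h3 _)
    (AddSubgroup.zsmul_mem _ hz _), ?_⟩
  have h4 : z - m • (a • t + b • z) = a • (Module.finrank K N • z - m • t) := by
    have h5 : z - m • (a • t + b • z) - a • (Module.finrank K N • z - m • t) =
        (1 - ((Module.finrank K N : ℤ) * a + m * b)) • z := by
      simp only [← natCast_zsmul]
      module
    rw [← hb, sub_self, zero_smul] at h5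
    exact sub_eq_zero.1 h5
  rw [h4]
  exact AddSubgroup.zsmul_mem _ h1 _

end main

end KM
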