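import Pool.Agent.Lib.MP_f80667_ag.Km.Pl
import Pool.Agent.Lib.MP_f80667_ag.Nf.SngB
import Pool.Agent.Lib.MP_f80667_ag.Nf.Gen

/-! Local theorems for the Kummer varieties: port of `Pe/Ke.lean`. -/

open ZC BE PE Polynomial IntermediateField CV

namespace KM

section aux

variable {F : Type} [Field F]

/-- The maps of points are functorial. -/
private theorem lo_fct {n : ℕ} {f : Fin n → F[X]} : Fct (Kum f) where
  id L _ _ x := by
    induction x using Quotient.inductionOn with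
    | h P => rfl
  comp L M N _ _ _ _ _ _ σ τ x := by
    induction x using Quotient.inductionOn with
    | h P => rfl
  gal K Ω _ _ _ _ _ _ M E _ _ _ _ _ γ w x y h := by
    obtain ⟨P, Q, rfl, rfl, h1, h2⟩ := h
    have key : ∀ {v : E × E} {u : Ω × Ω}, Rd w v u → Rd (temb γ w) v (γ u.1, γ u.2) := by
      rintro v u ⟨m1, m2, e1, e2⟩
      exact ⟨m1, m2, congrArg γ e1, congrArg γ e2⟩
    refine ⟨P, Q.mp (γ.restrictScalars F : Ω →ₐ[F] Ω), rfl, rfl, fun i => key (h1 i), fun i => ?_⟩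
    obtain ⟨m1, e1⟩ := h2 i
    exact ⟨m1, congrArg γ e1⟩

/-- A root. -/
private theorem lo_root {Ω : Type} [Field Ω] [Algebra F Ω] [IsAlgClosed Ω] {q : F[X]}
    (hq : Qf q) : ∃ e : Ω, aeval e q = 0 := by
  refine IsAlgClosed.exists_aeval_eq_zero Ω q ?_
  intro h0
  have h1 : q.natDegree = 0 := natDegree_eq_of_degree_eq_some h0
  have h2 := hq.deg
  omega

variable {K Ω : Type} [Field K] [Field Ω] [Algebra K Ω]

private theorem lo_le [CharZero K] [IsAlgClosure K Ω] {L : Ld K Ω} {M : IntermediateField K Ω}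
    {π π' : Ω} (h : L.Un M π) (h' : L.Un M π') : L.nm π ≤ L.nm π' := by
  obtain ⟨a, ha⟩ := h'.val π h.mem (L.ne_zero h.pos)
  have h0 : 0 < a := by
    have h1 := h.lt
    rw [ha, ← zpow_zero (L.nm π')] at h1
    exact (zpow_lt_zpow_iff_right_of_lt_one₀ h'.pos h'.lt).1 h1
  calc L.nm π = L.nm π' ^ a := ha
    _ ≤ L.nm π' ^ (1 : ℤ) :=
      (zpow_le_zpow_iff_right_of_lt_one₀ h'.pos h'.lt).2 (by omega)
    _ = L.nm π' := zpow_one _

/-- The condition on the exponent of the `j`-invariant for large numbers. -/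
private theorem lo_jc [CharZero K] [IsAlgClosure K Ω] [Algebra F K] [Algebra F Ω]
    [IsScalarTower F K Ω] (L : Ld K Ω) (W : WeierstrassCurve F) [W.IsElliptic] :
    ∃ b : ℕ, ∀ l : ℕ, b < l → L.Jc l W := by
  by_cases h : ∃ π : Ω, L.Un ⊥ π ∧ ∃ k : ℕ, L.nm (algebraMap F Ω W.Δ) =
      L.nm (algebraMap F Ω W.c₄) ^ 3 * L.nm π ^ k
  · obtain ⟨π₀, hπ₀, k₀, hk₀⟩ := h
    refine ⟨k₀, fun l hl π hπ n hn hd => ?_⟩
    rw [le_antisymm (lo_le hπ hπ₀) (lo_le hπ₀ hπ)] at hn
    have hΔ : L.nm (algebraMap F Ω W.Δ) ≠ 0 := by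
      refine (L.pos ?_).ne'
      rw [Ne, map_eq_zero_iff _ (algebraMap F Ω).injective]
      exact W.isUnit_Δ.ne_zero
    have hc : L.nm (algebraMap F Ω W.c₄) ^ 3 ≠ 0 := fun h0 => hΔ (by rw [hn, h0, zero_mul])
    have h1 : L.nm π₀ ^ n = L.nm π₀ ^ k₀ := mul_left_cancel₀ hc (hn.symm.trans hk₀)
    have h2 : n = k₀ := (pow_right_strictAnti₀ hπ₀.pos hπ₀.lt).injective h1
    subst h2
    by_contra h3
    exact absurd (Nat.le_of_dvd (Nat.pos_of_ne_zero h3) hd) (not_le.2 hl)
  · exact ⟨0, fun l _ π hπ n hn _ => absurd ⟨π, hπ, n, hn⟩ h⟩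

end aux

variable {F : Type} [Field F] {n : ℕ} [NeZero n] {f : Fin n → F[X]} {K Ω : Type} [Field K]
  [CharZero K] [Field Ω] [Algebra K Ω] [Algebra F K] [Algebra F Ω] [IsScalarTower F K Ω]
  [IsAlgClosure K Ω]

/-- From prime numbers to all numbers. -/
theorem dm_pr {V : Vr F} {n₀ : ℕ} (h : ∀ l : ℕ, l.Prime → n₀ < l → Dm V K Ω l) (m : ℕ)
    (hm : m ≠ 0) (hL : Lg n₀ m) : Dm V K Ω m := by
  induction m using Nat.strong_induction_on with
  | _ m ih =>
    by_cases h1 : m = 1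
    · subst h1
      intro z hz
      refine ⟨z, hz, ?_⟩
      rw [one_nsmul, sub_self]
      exact AddSubgroup.zero_mem _
    obtain ⟨l, hl, k, rfl⟩ := Nat.exists_prime_and_dvd h1
    have hk0 : k ≠ 0 := fun h0 => hm (by rw [h0, mul_zero])
    have hlt : k < l * k := lt_mul_of_one_lt_left (Nat.pos_of_ne_zero hk0) hl.one_lt
    have ihk := ih k hlt hk0 fun q hq hqk => hL q hq (dvd_mul_of_dvd_right hqk l)
    intro z hz
    obtain ⟨z', hz', e'⟩ := h l hl (hL l hl (dvd_mul_right l k)) z hz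
    obtain ⟨z'', hz'', e''⟩ := ihk z' hz'
    refine ⟨z'', hz'', ?_⟩
    have e : z - (l * k) • z'' = (z - l • z') + l • (z' - k • z'') := by
      rw [smul_sub, smul_smul]
      abel
    rw [e]
    exact AddSubgroup.add_mem _ e' (AddSubgroup.nsmul_mem _ e'' l)

/-- **Almost all prime numbers.** Proof: as `dk_pot` (`Pe/Ke.lean`): `M` is generated by a root of every `f i`; `exists_qm`; `exists_bsL`: `L'`; for `l` larger than a bound the condition `L'.Jc l (W i)` holds (`Jc`: if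
`nm Δ = nm c₄ ^ 3 nm π ^ k` and `l ∣ k` then `k = 0`: for `l` greater than the exponent `k` of one uniformizer; `k` does not depend on the uniformizer), `loc_lp` (`Nf/SngB.lean`) over `M`, `ks_X`, `dm_tr`, `dm_pr`. -/
theorem dk_pot (L : Ld K Ω) (hf : ∀ i, Qf (f i)) :
    ∃ n₀ : ℕ, ∀ m : ℕ, m ≠ 0 → Lg n₀ m → Dm (Kum f) K Ω m := by
  have hcl : IsAlgClosed Ω := IsAlgClosure.isAlgClosed K
  have hal : Algebra.IsAlgebraic K Ω := IsAlgClosure.isAlgebraic
  choose e he using fun i => lo_root (Ω := Ω) (hf i)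
  have hi : ∀ x : Ω, IsIntegral K x := fun x => (Algebra.IsAlgebraic.isAlgebraic x).isIntegral
  obtain ⟨M, hM⟩ : ∃ M : IntermediateField K Ω, M = adjoin K (Set.range e) := ⟨_, rfl⟩
  have hMf : FiniteDimensional K M := by
    rw [hM]
    exact IntermediateField.finiteDimensional_adjoin fun x _ => hi x
  have heM : ∀ i, e i ∈ M := fun i => by
    rw [hM]
    exact subset_adjoin K _ ⟨i, rfl⟩
  have hst : IsScalarTower F M Ω := IsScalarTower.of_algebraMap_eq fun _ => rfl
  have rootM : ∀ {q : F[X]} {x : Ω}, aeval x q = 0 → x ∈ M → ∃ y : M, aeval y q = 0 := by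
    intro q x hx hxM
    refine ⟨⟨x, hxM⟩, ?_⟩
    apply (algebraMap M Ω).injective
    rw [map_zero, ← aeval_algebraMap_apply]
    exact hx
  choose W hW hQ using fun i => exists_qm (N := M) (hf i) fun _ => rootM (he i) (heM i)
  have hac : IsAlgClosure M Ω := ⟨hcl, Algebra.IsAlgebraic.tower_top (K := K) M⟩
  obtain ⟨L', -, -⟩ := L.exists_bsL M
  choose b hb using fun i => lo_jc L' (W i)
  refine ⟨max (max 4 L'.p) (max (Module.finrank K M) (Finset.univ.sup b)), fun m hm hL =>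
    dm_pr (fun l hl hl' => ?_) m hm hL⟩
  have h4 : 4 < l := ((le_max_left _ _).trans (le_max_left _ _)).trans_lt hl'
  have hp : L'.p < l := ((le_max_right _ _).trans (le_max_left _ _)).trans_lt hl'
  have hd : Module.finrank K M < l := ((le_max_left _ _).trans (le_max_right _ _)).trans_lt hl'
  have hb' : Finset.univ.sup b < l := ((le_max_right _ _).trans (le_max_right _ _)).trans_lt hl'
  have hodd : Odd l := hl.odd_of_ne_two (by omega)
  have hcop : (Module.finrank K M).Coprime l := by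
    refine Nat.Coprime.symm ((Nat.Prime.coprime_iff_not_dvd hl).2 fun h => ?_)
    have h2 := Nat.le_of_dvd Module.finrank_pos h
    omega
  refine dm_tr lo_fct M hcop (ks_X (K := M) (Ω := Ω) (M := M) (fun i => (hQ i).some) hodd ?_)
  exact NE.loc_lp L' hl h4 hp.ne' fun i =>
    hb i l ((Finset.le_sup (f := b) (Finset.mem_univ i)).trans_lt hb')

/-- **The good places.** Proof: as `dk_good` (`Pe/Ke.lean`): `M` is generated by a root of every `f i` (by induction over the finite set of indices: `M` is finite, `Cp l M` for all `l ≥ 5`, `M` is in an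
unramified extension and contains the roots); `exists_qmG`, `NE.loc_E` (`Nf/Gen.lean`) with `Lh`: all curves are good, `L'.p ≠ 2`. -/
theorem dk_good (L : Ld K Ω) [L.Unr] (h2 : L.p ≠ 2) (hf : ∀ i, Qf (f i))
    (hf' : ∀ i, L.Gq (f i)) {m : ℕ} (hm : m ≠ 0) (h5 : Lg 4 m) : Dm (Kum f) K Ω m := by
  have hcl : IsAlgClosed Ω := IsAlgClosure.isAlgClosed K
  choose e he using fun i => lo_root (Ω := Ω) (hf i)
  have co : ∀ (q : F[X]) (M : IntermediateField K Ω) (i : ℕ),
      (q.map (algebraMap F Ω)).coeff i ∈ M := fun q M i => by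
    rw [coeff_map, IsScalarTower.algebraMap_apply F K Ω]
    exact M.algebraMap_mem _
  have dg : ∀ q : F[X], Qf q → (q.map (algebraMap F Ω)).natDegree ≤ 4 ∧
      q.map (algebraMap F Ω) ≠ 0 := fun q hq => by
    refine ⟨?_, ?_⟩
    · rw [natDegree_map]
      rcases hq.deg with h4 | h4 <;> omega
    · rw [Ne, Polynomial.map_eq_zero]
      rintro rfl
      rcases hq.deg with h4 | h4 <;> simp at h4
  have ev : ∀ (q : F[X]) (x : Ω), aeval x q = 0 → (q.map (algebraMap F Ω)).eval x = 0 :=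
    fun q x hx => by rw [eval_map_algebraMap, hx]
  have key : ∀ s : Finset (Fin n), ∃ M : IntermediateField K Ω, FiniteDimensional K M ∧
      (∀ l : ℕ, l.Prime → 5 ≤ l → Cp l M) ∧ (∀ i ∈ s, e i ∈ M) ∧ ∃ N ≠ 0, M ≤ L.Ur ⊥ N := by
    classical
    intro s
    induction s using Finset.induction_on with
    | empty => exact ⟨⊥, inferInstance, fun l _ _ => cp_bot l, fun i hi => absurd hi (by simp),
        1, one_ne_zero, bot_le⟩
    | insert i s his ih =>
      obtain ⟨M, hM, hc, hs, N, hN, hle⟩ := ih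
      obtain ⟨N', hN', heN'⟩ := Ld.gq_ur (hf' i) (he i)
      refine ⟨M ⊔ K⟮e i⟯, (cp_adj (l := 5) (by norm_num) le_rfl (hc 5 (by norm_num) le_rfl)
        (dg _ (hf i)).2 (dg _ (hf i)).1 (co (f i) M) (ev _ _ (he i))).1, fun l hl hl5 =>
        (cp_adj hl hl5 (hc l hl hl5) (dg _ (hf i)).2 (dg _ (hf i)).1 (co (f i) M)
          (ev _ _ (he i))).2, fun k hk => ?_, N * N', mul_ne_zero hN hN', ?_⟩
      · rcases Finset.mem_insert.1 hk with rfl | hk
        · exact (le_sup_right : K⟮e k⟯ ≤ M ⊔ K⟮e k⟯) (mem_adjoin_simple_self K (e k))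
        · exact (le_sup_left : M ≤ M ⊔ K⟮e i⟯) (hs k hk)
      · refine sup_le (hle.trans (Ld.ur_dvd ⊥ (dvd_mul_right N N'))) ?_
        exact adjoin_simple_le_iff.2 (Ld.ur_dvd ⊥ (dvd_mul_left N' N) heN')
  obtain ⟨M, hM, hc₂, hs, N, hN, hle⟩ := key Finset.univ
  have heM : ∀ i, e i ∈ M := fun i => hs i (Finset.mem_univ i)
  -- the degree
  have hcop : (Module.finrank K M).Coprime m := by
    refine Nat.Coprime.symm (Nat.coprime_of_dvd fun l hl hlm hlM => ?_)
    have h6 := hc₂ l hl (h5 l hl hlm) ⊥ inferInstance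
    rw [bot_sup_eq] at h6
    have h3 := relIndex_fix (M := (⊥ : IntermediateField K Ω)) (N := M) bot_le
    rw [IntermediateField.finrank_bot, mul_one] at h3
    rw [h3] at h6
    exact ((Nat.Prime.coprime_iff_not_dvd hl).1 h6.symm) hlM
  -- the field is unramified
  obtain ⟨L', hp, hL'⟩ := L.exists_bsL M
  have hu : L'.Unr := ⟨fun x hx => by
    have hx0 : (x : Ω) ≠ 0 := fun h0 => hx (Subtype.ext h0)
    obtain ⟨n, hn⟩ := Ld.ur_unr (L := L) hN (hle x.2) hx0
    refine ⟨n, ?_⟩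
    rw [hp, hL', hL']
    exact hn⟩
  choose W hW hQ using fun i => Ld.exists_qmG (hf' i) (hf i) h2 (N := M)
    (fun _ => ⟨e i, heM i, he i⟩) hL'
  have ell : ∀ i, (W i).IsElliptic := fun i => ⟨by
    rw [isUnit_iff_ne_zero]
    intro h0
    have h6 := (hW i).disc
    rw [h0, map_zero, L'.zero] at h6
    exact zero_ne_one h6⟩
  have hodd : Odd m := by
    rw [← Nat.not_even_iff_odd, even_iff_two_dvd]
    intro h6
    have := h5 2 Nat.prime_two h6
    omega
  have hT : IsScalarTower F M Ω := IsScalarTower.of_algebraMap_eq fun _ => rfl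
  have halg : Algebra.IsAlgebraic K Ω := IsAlgClosure.isAlgebraic
  have hac : IsAlgClosure M Ω := ⟨hcl, Algebra.IsAlgebraic.tower_top (K := K) M⟩
  refine dm_tr lo_fct M hcop (ks_X (K := M) (Ω := Ω) (M := M) (fun i => (hQ i).some) hodd ?_)
  exact NE.loc_E (L := L') ⟨fun i => (hW i).hd, fun i _ _ => Or.inl (hW i),
    fun h6 => absurd (hp.symm.trans h6) h2⟩ hm

end KM
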