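import Pool.Agent.Lib.MP_f80667_ag.Km.Def
import Pool.Agent.Lib.MP_f80667_ag.Pe.Kt
import Pool.Agent.Lib.MP_f80667_ag.Cv.Hc

/-! The Galois action on the points of the Kummer varieties: port of the last part of `Pe/Kt.lean`. -/

open ZC BE PE Polynomial CV

namespace KM

/-- The variety is a functor. Proof: `Quotient.inductionOn`; `gal`: the coordinates of the representatives are moved by `γ` (as `kw_red` in `Pe/Kw.lean`, with `temb` in the place of `kw_emb`). -/
instance hfK {F : Type} [Field F] {n : ℕ} (f : Fin n → F[X]) : Hf (Kum f) := by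
  refine ⟨⟨?_, ?_, ?_⟩⟩
  · intro L _ _ x
    induction x using Quotient.inductionOn with
    | h P => rfl
  · intro L M N _ _ _ _ _ _ σ τ x
    induction x using Quotient.inductionOn with
    | h P => rfl
  · intro K Ω _ _ _ _ _ _ M E _ _ _ _ _ γ w x y h
    obtain ⟨P, Q, rfl, rfl, h1, h2⟩ := h
    have key : ∀ {a : E} {b : Ω}, (∃ h : a ∈ w.V, w.res ⟨a, h⟩ = b) →
        ∃ h : a ∈ (temb γ w).V, (temb γ w).res ⟨a, h⟩ = γ b := by
      rintro a b ⟨h3, h4⟩
      refine ⟨h3, ?_⟩
      rw [temb_res]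
      exact congrArg γ h4
    refine ⟨P, Q.mp (γ.restrictScalars F : Ω →ₐ[F] Ω), rfl, rfl, fun i => ?_, fun i => ?_⟩
    · obtain ⟨m1, m2, e1, e2⟩ := h1 i
      obtain ⟨m1', e1'⟩ := key ⟨m1, e1⟩
      obtain ⟨m2', e2'⟩ := key ⟨m2, e2⟩
      exact ⟨m1', m2', e1', e2'⟩
    · exact key (h2 i)

variable {F : Type} [Field F] {n : ℕ} {f : Fin n → F[X]} {K Ω : Type} [Field K] [CharZero K]
  [Field Ω] [Algebra F K] [Algebra K Ω] [Algebra F Ω] [IsScalarTower F K Ω] [IsAlgClosure K Ω]

/-- An invariant vector up to factors is a multiple of an invariant one. Proof: as `exists_inv` (`Pe/Kt.lean`): divide by a coordinate which is not `0`. -/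
theorem exists_inv' {v : Fin n → Ω} (hv : v ≠ 0) (h : ∀ σ : Ω ≃ₐ[K] Ω, ∃ a : Ω,
      ∀ i, σ (v i) = a * v i) :
    ∃ (a : Ω) (u : Fin n → K), a ≠ 0 ∧ ∀ i, algebraMap K Ω (u i) = a * v i := by
  obtain ⟨j, hj⟩ : ∃ j, v j ≠ 0 := by
    by_contra hc
    push Not at hc
    exact hv (funext hc)
  have h1 : ∀ i, ∃ r : K, algebraMap K Ω r = (v j)⁻¹ * v i := by
    intro i
    refine (InfiniteGalois.mem_range_algebraMap_iff_fixed (k := K) ((v j)⁻¹ * v i)).2 fun γ => ?_
    obtain ⟨a, ha⟩ := h γ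
    have ha0 : a ≠ 0 := by
      rintro rfl
      have e2 := ha j
      rw [zero_mul] at e2
      exact hj ((map_eq_zero γ).1 e2)
    rw [map_mul, map_inv₀, ha, ha]
    field_simp
  choose u hu using h1
  exact ⟨(v j)⁻¹, u, inv_ne_zero hj, hu⟩

/-- Invariant points have coordinates in `K`. Proof: as `exists_kdesc` (`Pe/Kt.lean`): `exists_inv` for the `x i` (factors `α i`), `exists_inv'` for `(α i) ^ 2 t i`. -/
theorem exists_kdesc {x : (Kum f).pt Ω} (hx : ∀ σ : Ω ≃ₐ[K] Ω, (Kum f).act σ x = x) :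
    ∃ P : (Kum f).pt K, x = (Kum f).map (IsScalarTower.toAlgHom F K Ω) P := by
  induction x using Quotient.inductionOn with
  | h P =>
    have hr : ∀ σ : Ω ≃ₐ[K] Ω, ∃ (a : Fin n → Ω) (c : Ω), (∀ i, a i ≠ 0) ∧ c ≠ 0 ∧
        (∀ i, (σ (P.x i).1, σ (P.x i).2) = (a i * (P.x i).1, a i * (P.x i).2)) ∧
        ∀ i, σ (P.t i) = c * a i ^ 2 * P.t i := by
      intro σ
      exact Kx.rel_symm (Quotient.exact (hx σ))
    have hα0 : ∀ i, ∃ (α : Ω) (u : K × K), α ≠ 0 ∧
        (algebraMap K Ω u.1, algebraMap K Ω u.2) = (α * (P.x i).1, α * (P.x i).2) := by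
      intro i
      refine exists_inv (K := K) (P.hx i) fun σ => ?_
      obtain ⟨a, c, ha, hc, h1, h2⟩ := hr σ
      exact ⟨a i, h1 i⟩
    choose α u hα hu using hα0
    have hu1 : ∀ i, algebraMap K Ω (u i).1 = α i * (P.x i).1 := fun i => congrArg Prod.fst (hu i)
    have hu2 : ∀ i, algebraMap K Ω (u i).2 = α i * (P.x i).2 := fun i => congrArg Prod.snd (hu i)
    have key : ∀ (σ : Ω ≃ₐ[K] Ω) (α a : Ω) (w : Ω × Ω) (r : K × K), w ≠ 0 → a ≠ 0 →
        algebraMap K Ω r.1 = α * w.1 → algebraMap K Ω r.2 = α * w.2 →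
        (σ w.1, σ w.2) = (a * w.1, a * w.2) → σ α * a = α := by
      intro σ α a w r hw ha h1 h2 h3
      have e1 : σ w.1 = a * w.1 := congrArg Prod.fst h3
      have e2 : σ w.2 = a * w.2 := congrArg Prod.snd h3
      by_cases hw2 : w.2 = 0
      · have hw1 : w.1 ≠ 0 := fun hw1 => hw (Prod.ext hw1 hw2)
        have h4 := congrArg σ h1
        rw [AlgEquiv.commutes, map_mul, e1, h1] at h4
        apply mul_right_cancel₀ hw1
        rw [mul_assoc, ← h4]
      · have h4 := congrArg σ h2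
        rw [AlgEquiv.commutes, map_mul, e2, h2] at h4
        apply mul_right_cancel₀ hw2
        rw [mul_assoc, ← h4]
    obtain ⟨γ, w, hγ, hw⟩ := exists_inv' (K := K) (v := fun i => α i ^ 2 * P.t i)
      (fun h0 => P.ht (funext fun i =>
        (mul_eq_zero.1 (congrFun h0 i)).resolve_left (pow_ne_zero 2 (hα i)))) fun σ => by
      obtain ⟨a, c, ha, hc, h1, h2⟩ := hr σ
      refine ⟨c, fun i => ?_⟩
      have ea : σ (α i) * a i = α i := key σ (α i) (a i) (P.x i) (u i) (P.hx i) (ha i) (hu1 i)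
        (hu2 i) (h1 i)
      change σ (α i ^ 2 * P.t i) = c * (α i ^ 2 * P.t i)
      rw [map_mul, map_pow, h2]
      calc σ (α i) ^ 2 * (c * a i ^ 2 * P.t i) = c * ((σ (α i) * a i) ^ 2 * P.t i) := by ring
        _ = c * (α i ^ 2 * P.t i) := by rw [ea]
    have hinj : Function.Injective (algebraMap K Ω) := (algebraMap K Ω).injective
    have hune : ∀ i, u i ≠ 0 := by
      intro i h0
      apply P.hx i
      have h1 := hu1 i
      have h2 := hu2 i
      rw [h0, Prod.fst_zero, map_zero] at h1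
      rw [h0, Prod.snd_zero, map_zero] at h2
      exact Prod.ext ((mul_eq_zero.1 h1.symm).resolve_left (hα i))
        ((mul_eq_zero.1 h2.symm).resolve_left (hα i))
    have hwne : w ≠ 0 := by
      intro h0
      apply P.ht
      funext i
      have h1 := hw i
      rw [h0, Pi.zero_apply, map_zero] at h1
      exact (mul_eq_zero.1 ((mul_eq_zero.1 h1.symm).resolve_left hγ)).resolve_left
        (pow_ne_zero 2 (hα i))
    have hf : ∀ i, algebraMap K Ω (qf (f i) (u i)) = α i ^ 4 * qf (f i) (P.x i) := by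
      intro i
      rw [← qf_mul, ← hu]
      exact (qf_map (f i) (IsScalarTower.toAlgHom F K Ω) (u i)).symm
    have heq : ∀ i j, qf (f i) (u i) * w j ^ 2 = qf (f j) (u j) * w i ^ 2 := by
      intro i j
      apply hinj
      rw [map_mul, map_mul, map_pow, map_pow, hf, hf, hw, hw]
      linear_combination (γ ^ 2 * α i ^ 4 * α j ^ 4) * P.eq i j
    refine ⟨Quotient.mk _ (⟨u, w, hune, hwne, heq⟩ : Kx f K), ?_⟩
    refine Quotient.sound ⟨α, γ, hα, hγ, hu, fun i => ?_⟩
    change algebraMap K Ω (w i) = γ * α i ^ 2 * P.t i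
    rw [hw, mul_assoc]

/-- Every point has a finite field of definition. Proof: the coordinates of a representative generate a finite extension. -/
theorem kfp (x : (Kum f).pt Ω) : ∃ M : IntermediateField K Ω, FiniteDimensional K M ∧
    Fp (Kum f) M x := by
  induction x using Quotient.inductionOn with
  | h P =>
    have halg : Algebra.IsAlgebraic K Ω := IsAlgClosure.isAlgebraic
    have hfin : Finite (Set.range (fun i => (P.x i).1) ∪ Set.range (fun i => (P.x i).2) ∪
        Set.range P.t : Set Ω) :=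
      (((Set.finite_range _).union (Set.finite_range _)).union (Set.finite_range _)).to_subtype
    refine ⟨IntermediateField.adjoin K (Set.range (fun i => (P.x i).1) ∪
        Set.range (fun i => (P.x i).2) ∪ Set.range P.t : Set Ω),
      IntermediateField.finiteDimensional_adjoin fun z _ => (halg.isAlgebraic z).isIntegral,
      fun γ hγ => ?_⟩
    rw [IntermediateField.mem_fixingSubgroup_iff] at hγ
    have h : ∀ z ∈ (Set.range (fun i => (P.x i).1) ∪ Set.range (fun i => (P.x i).2) ∪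
        Set.range P.t : Set Ω), γ z = z :=
      fun z hz => hγ z (IntermediateField.subset_adjoin K _ hz)
    refine Quotient.sound ⟨fun _ => 1, 1, fun _ => one_ne_zero, one_ne_zero, fun i => ?_,
      fun i => ?_⟩
    · change P.x i = (1 * γ (P.x i).1, 1 * γ (P.x i).2)
      rw [h (P.x i).1 (Or.inl (Or.inl ⟨i, rfl⟩)), h (P.x i).2 (Or.inl (Or.inr ⟨i, rfl⟩)), one_mul,
        one_mul]
    · change P.t i = 1 * 1 ^ 2 * γ (P.t i)
      rw [h (P.t i) (Or.inr ⟨i, rfl⟩), one_pow, one_mul, one_mul]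

end KM
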