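import Pool.Agent.Lib.MP_f80667_ag.Km.Va
import Pool.Agent.Lib.MP_f80667_ag.Km.De
import Pool.Agent.Lib.MP_f80667_ag.Pe.Kw
import Pool.Agent.Lib.MP_f80667_ag.Fa.Inv

/-! Rational equivalence on the Kummer varieties: port of `Pe/KwCyc.lean`, `Pe/Kw.lean`. -/

open ZC BE PE Polynomial CV

namespace KM

variable {F : Type} [Field F] {n : ℕ} {f : Fin n → F[X]} {K : Type} [Field K] [CharZero K]
  [Algebra F K] {Ω : Type} [Field Ω] [Algebra K Ω] [Algebra F Ω] [IsScalarTower F K Ω]
  [IsAlgClosure K Ω]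

omit [IsAlgClosure K Ω] in
/-- The cycles rationally equivalent to `0` are cycles over `K`. Proof: as `kwCyc_le` (`Pe/KwCyc.lean`). -/
theorem ratEq_cyc : (Kum f).ratEq K Ω ≤ (Kum f).cyc K Ω := by
  refine (AddSubgroup.closure_le _).2 ?_
  rintro z ⟨E, _, _, _, _, hE, G, x, hG, hx, S, m, y, h1, h2, rfl⟩
  have hc : CharZero E := charZero_of_injective_algebraMap (algebraMap K E).injective
  obtain ⟨ξ, rfl⟩ := exists_kdesc (f := f) (K := E) (Ω := AlgebraicClosure E) hx
  have hval : ∀ w ∈ S, (Kum f).red w ξ (y w) := by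
    intro w hw
    obtain ⟨W, hW1, hW2, hred⟩ := (h2 w hw).2
    obtain ⟨y', hy'⟩ := kred_ex w ξ
    have h3 := kred_up (f := f) (w := w) (W := W) ⟨hW1, hW2⟩ hy'
    have e : y w = y' := kred_uniq W hred h3
    rw [e]
    exact hy'
  intro σ
  refine sum_inv σ ((Kum f).act σ) S m y h1 (fun v hv => (h2 v hv).1) fun v hv hv' => ?_
  have h3 := kred_act (f := f) (w := v) (w' := v.gal σ)
    (σ := (σ.restrictScalars F : Ω ≃ₐ[F] Ω)) rfl (fun a h h' => rfl) (hval v hv)
  exact kred_uniq _ (hval _ hv') h3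

omit [CharZero K] [Algebra F K] [IsScalarTower F K Ω] [Algebra K Ω] [IsAlgClosure K Ω] [Field K]
  [Algebra F Ω] [Field Ω] in
/-- An automorphism over `E` fixes the points over `E`. -/
private theorem kw_fix {E : Type} [Field E] [Algebra F E]
    (σ : AlgebraicClosure E ≃ₐ[E] AlgebraicClosure E) (x : (Kum f).pt E) :
    (Kum f).map (σ.restrictScalars F : AlgebraicClosure E →ₐ[F] AlgebraicClosure E)
      ((Kum f).map (IsScalarTower.toAlgHom F E (AlgebraicClosure E)) x) =
      (Kum f).map (IsScalarTower.toAlgHom F E (AlgebraicClosure E)) x := by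
  induction x using Quotient.inductionOn with
  | h P =>
    have e : ∀ a : E, σ (algebraMap E (AlgebraicClosure E) a) = algebraMap E (AlgebraicClosure E) a :=
      fun a => σ.commutes a
    have h : (P.mp (IsScalarTower.toAlgHom F E (AlgebraicClosure E))).mp
        (σ.restrictScalars F : AlgebraicClosure E →ₐ[F] AlgebraicClosure E) =
        P.mp (IsScalarTower.toAlgHom F E (AlgebraicClosure E)) := by
      obtain ⟨x, t, hx, ht, heq⟩ := P
      unfold Kx.mp
      congr 1
      · funext i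
        exact Prod.ext (e (x i).1) (e (x i).2)
      · funext i
        exact e (t i)
    exact congrArg (Quotient.mk _) h

/-- The sum of the divisors of `G` on the curve `E` for a point over `E`. Proof: as `pvK_ratEq` (`Pe/Kw.lean`). -/
theorem pvK_ratEq {z : (Kum f).pt Ω →₀ ℤ} (h : Pv (Kum f) K Ω z) : z ∈ (Kum f).ratEq K Ω := by
  have hac : IsAlgClosed Ω := IsAlgClosure.isAlgClosed K
  obtain ⟨E, i1, i2, i3, i4, hE, G, ξ, hG, S, m, y, hS, hv, rfl⟩ := h
  refine AddSubgroup.subset_closure ⟨E, i1, i2, i3, i4, hE, G,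
    (Kum f).map (IsScalarTower.toAlgHom F E (AlgebraicClosure E)) ξ, hG, fun σ => kw_fix σ ξ,
    S, m, y, hS, fun w hw => ⟨(hv w hw).1, ?_⟩, rfl⟩
  obtain ⟨W', hW'⟩ := exists_above w
  exact ⟨W', hW'.1, hW'.2, kred_up hW' (hv w hw).2⟩

end KM
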