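import Pool.Agent.Lib.MP_f80667_ag.Pe.Kd

/-!
The Kummer varieties `f_i(x_i) t_j² = f_j(x_j) t_i²` for all `i`, `j`, in the `ℙⁿ⁻¹`-bundle over `(ℙ¹)ⁿ` with the coordinates `t_i`
of weight two in `x_i`, the `f_i` separable polynomials of degree three or four (`f_i(x_i)` is the binary form of degree four): the
smooth model of the quotient of the product of the curves `y_i² = f_i(x_i)` by the simultaneous involution.

* `Kx f L`: homogeneous coordinates of the `L`-points: `x i` in `L² \ 0`, `t` in `Lⁿ \ 0`, `f_i(x_i) t_j² = f_j(x_j) t_i²`.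
* `Kx.Rel`: the same point: `x i` is multiplied by `a i`, and `t i` by `c (a i)²`.
* `Kum f`: the variety. The reduction of a point at a place: all coordinates are integral and the residues are the
  coordinates of the value.
-/

open ZC PE Polynomial

namespace KM

/-- Homogeneous coordinates. -/
structure Kx {F : Type} [Field F] {n : ℕ} (f : Fin n → F[X]) (L : Type) [Field L] [Algebra F L] where
  /-- the coordinates `x` -/
  x : Fin n → L × L
  /-- the coordinates `t` -/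
  t : Fin n → L
  hx : ∀ i, x i ≠ 0
  ht : t ≠ 0
  eq : ∀ i j, qf (f i) (x i) * t j ^ 2 = qf (f j) (x j) * t i ^ 2

namespace Kx

variable {F : Type} [Field F] {n : ℕ} {f : Fin n → F[X]} {L : Type} [Field L] [Algebra F L]

/-- Coordinates of the same point. -/
def Rel (P Q : Kx f L) : Prop := ∃ (a : Fin n → L) (c : L), (∀ i, a i ≠ 0) ∧ c ≠ 0 ∧
  (∀ i, Q.x i = (a i * (P.x i).1, a i * (P.x i).2)) ∧ ∀ i, Q.t i = c * a i ^ 2 * P.t i

theorem rel_refl (P : Kx f L) : P.Rel P :=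
  ⟨fun _ => 1, 1, fun _ => one_ne_zero, one_ne_zero, fun _ => by simp, fun _ => by simp⟩

theorem rel_symm {P Q : Kx f L} (h : P.Rel Q) : Q.Rel P := by
  obtain ⟨a, c, ha, hc, h1, h2⟩ := h
  refine ⟨fun i => (a i)⁻¹, c⁻¹, fun i => inv_ne_zero (ha i), inv_ne_zero hc, fun i => ?_,
    fun i => ?_⟩
  · rw [h1]
    exact Prod.ext (inv_mul_cancel_left₀ (ha i) _).symm (inv_mul_cancel_left₀ (ha i) _).symm
  · rw [h2]
    have := ha i
    field_simp

theorem rel_trans {P Q R : Kx f L} (h : P.Rel Q) (h' : Q.Rel R) : P.Rel R := by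
  obtain ⟨a, c, ha, hc, h1, h2⟩ := h
  obtain ⟨a', c', ha', hc', h1', h2'⟩ := h'
  refine ⟨fun i => a' i * a i, c' * c, fun i => mul_ne_zero (ha' i) (ha i), mul_ne_zero hc' hc,
    fun i => ?_, fun i => ?_⟩
  · rw [h1', h1]
    exact Prod.ext (mul_assoc _ _ _).symm (mul_assoc _ _ _).symm
  · rw [h2', h2]
    ring

variable (f L) in
/-- The equality of points. -/
def sd : Setoid (Kx f L) where
  r := Rel
  iseqv := ⟨rel_refl, rel_symm, rel_trans⟩

/-- The map induced by a homomorphism. -/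
def mp {M : Type} [Field M] [Algebra F M] (σ : L →ₐ[F] M) (P : Kx f L) : Kx f M where
  x i := (σ (P.x i).1, σ (P.x i).2)
  t i := σ (P.t i)
  hx i := Kc.mp_ne σ (P.hx i)
  ht := fun h0 => P.ht (funext fun i => (map_eq_zero σ).1 (congrFun h0 i))
  eq i j := by rw [qf_map, qf_map, ← map_pow, ← map_pow, ← map_mul, ← map_mul, P.eq]

theorem mp_rel {M : Type} [Field M] [Algebra F M] (σ : L →ₐ[F] M) {P Q : Kx f L}
    (h : P.Rel Q) : (P.mp σ).Rel (Q.mp σ) := by
  obtain ⟨a, c, ha, hc, h1, h2⟩ := h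
  refine ⟨fun i => σ (a i), σ c, fun i => (map_ne_zero σ).2 (ha i), (map_ne_zero σ).2 hc,
    fun i => ?_, fun i => ?_⟩
  · change (σ (Q.x i).1, σ (Q.x i).2) = (σ (a i) * σ (P.x i).1, σ (a i) * σ (P.x i).2)
    rw [h1, map_mul, map_mul]
  · change σ (Q.t i) = σ c * σ (a i) ^ 2 * σ (P.t i)
    rw [h2, map_mul, map_mul, map_pow]

end Kx

/-- The Kummer variety. -/
def Kum {F : Type} [Field F] {n : ℕ} (f : Fin n → F[X]) : BE.Vr F where
  pt L _ _ := Quotient (Kx.sd f L)
  map σ := Quotient.map (Kx.mp σ) fun _ _ h => Kx.mp_rel σ h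
  red w x y := ∃ P Q, x = Quotient.mk _ P ∧ y = Quotient.mk _ Q ∧ (∀ i, Rd w (P.x i) (Q.x i)) ∧
    ∀ i, ∃ h : P.t i ∈ w.V, w.res ⟨P.t i, h⟩ = Q.t i

end KM
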