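import Pool.Agent.Lib.MP_f80667_ag.Km.Def
import Pool.Agent.Lib.MP_f80667_ag.Pe.Kp

/-!
* `Kx.nu`, `knu`: the retraction of the exceptional spaces `f_i(x_i) = 0` for all `i` to their points `(1 : 0 : .. : 0)`.
* `kpi`: the map from the product of the elliptic curves; `x i` is the coordinate `x` of the point, `t i` the function `eta`
  (`Pe/Kp.lean`).
-/

open ZC BE PE Polynomial

namespace KM

section nu

variable {F : Type} [Field F] {n : ℕ} [NeZero n] {f : Fin n → F[X]} {L : Type} [Field L]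
  [Algebra F L]

open Classical in
/-- The retraction on coordinates. -/
noncomputable def Kx.nu (P : Kx f L) : Kx f L :=
  if h : ∀ i, qf (f i) (P.x i) = 0 then
    { P with
      t := Pi.single 0 1
      ht := fun h0 => one_ne_zero (α := L) (by simpa using congrFun h0 0)
      eq := fun i j => by rw [h i, h j, zero_mul, zero_mul] }
  else P

/-- Proof: as `Kc.nu_rel` (`Pe/Kp.lean`). -/
theorem Kx.nu_rel {P Q : Kx f L} (h : P.Rel Q) : P.nu.Rel Q.nu := by
  classical
  obtain ⟨a, c, ha, hc, h1, h2⟩ := h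
  have hq : ∀ i, qf (f i) (Q.x i) = 0 ↔ qf (f i) (P.x i) = 0 := by
    intro i
    rw [h1, qf_mul, mul_eq_zero, or_iff_right (pow_ne_zero 4 (ha i))]
  by_cases h0 : ∀ i, qf (f i) (P.x i) = 0
  · have h0' : ∀ i, qf (f i) (Q.x i) = 0 := fun i => (hq i).2 (h0 i)
    refine ⟨a, (a 0 ^ 2)⁻¹, ha, inv_ne_zero (pow_ne_zero 2 (ha 0)), ?_, ?_⟩
    · rw [Kx.nu, Kx.nu, dif_pos h0, dif_pos h0']
      exact h1
    · rw [Kx.nu, Kx.nu, dif_pos h0, dif_pos h0']
      intro i
      change (Pi.single 0 1 : Fin n → L) i = (a 0 ^ 2)⁻¹ * a i ^ 2 * (Pi.single 0 1 : Fin n → L) i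
      by_cases hi : i = 0
      · subst hi
        rw [Pi.single_eq_same, inv_mul_cancel₀ (pow_ne_zero 2 (ha 0)), mul_one]
      · rw [Pi.single_eq_of_ne hi, mul_zero]
  · have h0' : ¬ ∀ i, qf (f i) (Q.x i) = 0 := fun h' => h0 fun i => (hq i).1 (h' i)
    rw [Kx.nu, Kx.nu, dif_neg h0, dif_neg h0']
    exact ⟨a, c, ha, hc, h1, h2⟩

/-- The retraction. -/
noncomputable def knu : (Kum f).pt L → (Kum f).pt L :=
  Quotient.map Kx.nu fun _ _ h => Kx.nu_rel h

end nu

section pi

variable {F : Type} [Field F] {n : ℕ} [NeZero n] {f : Fin n → F[X]} {M : Type} [Field M]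
  [Algebra F M] {W : Fin n → WeierstrassCurve M} {L : Type} [Field L] [Algebra F L] [Algebra M L]
  [IsScalarTower F M L]

open Classical in
/-- The coordinates `t` of `kpi P`. -/
noncomputable def kt (Q : ∀ i, Qm (f i) (W i)) (P : ∀ i, Pt (W i) L) : Fin n → L :=
  if ∀ i, eta (P i) = 0 then Pi.single 0 1 else fun i => algebraMap M L (Q i).c * eta (P i)

theorem kt_ne (Q : ∀ i, Qm (f i) (W i)) (P : ∀ i, Pt (W i) L) : kt Q P ≠ 0 := by
  classical
  rw [kt]
  split_ifs with h
  · intro h0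
    have h1 := congrFun h0 0
    rw [Pi.single_eq_same] at h1
    exact one_ne_zero h1
  · intro h0
    apply h
    intro i
    have h1 : algebraMap M L (Q i).c * eta (P i) = 0 := congrFun h0 i
    exact (mul_eq_zero.1 h1).resolve_left ((map_ne_zero (algebraMap M L)).2 (Q i).hc)

theorem kt_eq (Q : ∀ i, Qm (f i) (W i)) (P : ∀ i, Pt (W i) L) (i j : Fin n) :
    qf (f i) ((Q i).mv (xh (P i))) * kt Q P j ^ 2 =
      qf (f j) ((Q j).mv (xh (P j))) * kt Q P i ^ 2 := by
  classical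
  rw [(Q i).sq, (Q j).sq, kt]
  split_ifs with h
  · rw [h i, h j]
    ring
  · dsimp only
    ring

/-- The coordinates of `kpi P`. -/
noncomputable def kpc (Q : ∀ i, Qm (f i) (W i)) (P : ∀ i, Pt (W i) L) : Kx f L where
  x i := (Q i).mv (xh (P i))
  t := kt Q P
  hx i := (Q i).mv_ne (xh_ne _)
  ht := kt_ne Q P
  eq := kt_eq Q P

/-- The map from the product to the Kummer variety. -/
noncomputable def kpi (Q : ∀ i, Qm (f i) (W i)) (P : ∀ i, Pt (W i) L) : (Kum f).pt L :=
  Quotient.mk _ (kpc Q P)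

end pi

end KM
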