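import Pool.Agent.Lib.MP_f80667_ag.Km.Def
import Pool.Agent.Lib.MP_f80667_ag.Cv.Mo
import Pool.Agent.Lib.MP_f80667_ag.Kf.Dtg

/-! The Kummer surface `Kv f g` is the variety `Kum ![f, g]`. -/

open ZC BE PE Polynomial IsDedekindDomain NumberField CV

namespace KM

/-- Isomorphic varieties. Proof: `φ.fa`, `ψ.fa` are inverse to each other on classes of families (`fa_cl`, `Mo.ratEq`, `Mo.nrm`): the divisibility; for the completion: `im_m` (`Pe/Kg.lean`). -/
theorem qp_iso {F : Type} [Field F] [NumberField F] {V V' : Vr F} (φ : Mo V V') (ψ : Mo V' V)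
    (h : ∀ (L : Type) [Field L] [Algebra F L] (x : V'.pt L), φ.f L (ψ.f L x) = x) {P : Set ℕ}
    (hV : QP V P) : QP V' P := by
  have h0 : ∀ (K : Type) [Field K] [Algebra F K] (z : Dz V' K), φ.dz K (ψ.dz K z) = z := by
    intro K _ _ z
    rw [← Mo.dz_comp]
    exact Mo.dz_id (fun x => h _ x) z
  have key : ∀ m : ℕ, m ≠ 0 → Sf P m → ∀ c : Fam V', ∃ c' : Fam V', c.cl = m • c'.cl := by
    intro m hm hS c
    obtain ⟨d', hd⟩ := hV.1 m hm hS (ψ.ad c : AdF V)
    refine ⟨(φ.ad d' : AdF V'), ?_⟩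
    have e2 : φ.ad (ψ.ad c) = c :=
      Prod.ext (funext fun v => h0 _ (c.1 v)) (funext fun v => h0 _ (c.2 v))
    have e1 : φ.fa (clH V (ψ.ad c)) = m • φ.fa (clH V d') := by
      rw [← map_nsmul]
      exact congrArg φ.fa hd
    rw [φ.fa_cl, φ.fa_cl, e2] at e1
    exact e1
  exact ⟨key, im_m key⟩

/-- The map of coordinates. -/
private def sw {F : Type} [Field F] {f g : F[X]} {L : Type} [Field L] [Algebra F L]
    (P : Kc f g L) : Kx ![f, g] L where
  x := ![P.x, P.y]
  t := ![P.t.2, P.t.1]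
  hx := by
    intro i
    fin_cases i
    · exact P.hx
    · exact P.hy
  ht := fun h0 => P.ht (Prod.ext (congrFun h0 1) (congrFun h0 0))
  eq := by
    intro i j
    fin_cases i <;> fin_cases j
    · rfl
    · exact P.eq
    · exact P.eq.symm
    · rfl

private theorem sw_rel {F : Type} [Field F] {f g : F[X]} {L : Type} [Field L] [Algebra F L]
    {P Q : Kc f g L} (h : P.Rel Q) : (sw P).Rel (sw Q) := by
  obtain ⟨a, b, c, ha, hb, hc, h1, h2, h3⟩ := h
  refine ⟨![a, b], c, ?_, hc, ?_, ?_⟩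
  · intro i
    fin_cases i
    · exact ha
    · exact hb
  · intro i
    fin_cases i
    · exact h1
    · exact h2
  · intro i
    fin_cases i
    · exact congrArg Prod.snd h3
    · exact congrArg Prod.fst h3

/-- The inverse map of coordinates. -/
private def ws {F : Type} [Field F] {f g : F[X]} {L : Type} [Field L] [Algebra F L]
    (P : Kx ![f, g] L) : Kc f g L where
  x := P.x 0
  y := P.x 1
  t := (P.t 1, P.t 0)
  hx := P.hx 0
  hy := P.hx 1
  ht := by
    intro h0
    refine P.ht (funext fun i => ?_)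
    fin_cases i
    · exact congrArg Prod.snd h0
    · exact congrArg Prod.fst h0
  eq := P.eq 0 1

private theorem ws_rel {F : Type} [Field F] {f g : F[X]} {L : Type} [Field L] [Algebra F L]
    {P Q : Kx ![f, g] L} (h : P.Rel Q) : (ws P).Rel (ws Q) := by
  obtain ⟨a, c, ha, hc, h1, h2⟩ := h
  exact ⟨a 0, a 1, c, ha 0, ha 1, hc, h1 0, h1 1, Prod.ext (h2 1) (h2 0)⟩

private theorem sw_ws {F : Type} [Field F] {f g : F[X]} {L : Type} [Field L] [Algebra F L]
    (P : Kx ![f, g] L) : (sw (ws P)).Rel P := by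
  refine ⟨fun _ => 1, 1, fun _ => one_ne_zero, one_ne_zero, ?_, ?_⟩
  · intro i
    fin_cases i
    · exact Prod.ext (one_mul _).symm (one_mul _).symm
    · exact Prod.ext (one_mul _).symm (one_mul _).symm
  · intro i
    fin_cases i
    · change P.t 0 = 1 * 1 ^ 2 * P.t 0
      ring
    · change P.t 1 = 1 * 1 ^ 2 * P.t 1
      ring

/-- The isomorphism: `(x, y, (t₀, t₁)) ↦ (![x, y], ![t₁, t₀])`. -/
theorem exists_iso {F : Type} [Field F] (f g : F[X]) :
    ∃ (φ : Mo (Kv f g) (Kum ![f, g])) (ψ : Mo (Kum ![f, g]) (Kv f g)),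
      ∀ (L : Type) [Field L] [Algebra F L] (x : (Kum ![f, g]).pt L), φ.f L (ψ.f L x) = x := by
  refine ⟨⟨fun L _ _ => Quotient.map sw fun _ _ h => sw_rel h, ?_, ?_⟩,
    ⟨fun L _ _ => Quotient.map ws fun _ _ h => ws_rel h, ?_, ?_⟩, ?_⟩
  · intro L M _ _ _ _ σ x
    induction x using Quotient.inductionOn with
    | h P =>
      refine Quotient.sound ⟨fun _ => 1, 1, fun _ => one_ne_zero, one_ne_zero, ?_, ?_⟩
      · intro i
        fin_cases i
        · exact Prod.ext (one_mul _).symm (one_mul _).symm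
        · exact Prod.ext (one_mul _).symm (one_mul _).symm
      · intro i
        fin_cases i
        · change σ P.t.2 = 1 * 1 ^ 2 * σ P.t.2
          ring
        · change σ P.t.1 = 1 * 1 ^ 2 * σ P.t.1
          ring
  · intro K L Ω _ _ _ _ _ _ _ w x y h
    obtain ⟨P, Q, rfl, rfl, h1, h2, h3⟩ := h
    refine ⟨sw P, sw Q, rfl, rfl, ?_, ?_⟩
    · intro i
      fin_cases i
      · exact h1
      · exact h2
    · obtain ⟨a1, a2, e1, e2⟩ := h3
      intro i
      fin_cases i
      · exact ⟨a2, e2⟩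
      · exact ⟨a1, e1⟩
  · intro L M _ _ _ _ σ x
    induction x using Quotient.inductionOn with
    | h P => rfl
  · intro K L Ω _ _ _ _ _ _ _ w x y h
    obtain ⟨P, Q, rfl, rfl, h1, h2⟩ := h
    obtain ⟨a0, e0⟩ := h2 0
    obtain ⟨a1, e1⟩ := h2 1
    exact ⟨ws P, ws Q, rfl, rfl, h1 0, h1 1, a1, a0, e1, e0⟩
  · intro L _ _ x
    induction x using Quotient.inductionOn with
    | h P => exact Quotient.sound (sw_ws P)

/-- **All prime numbers.** -/
theorem qp_sw {F : Type} [Field F] [NumberField F] {f g : F[X]} {P : Set ℕ}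
    (h : QP (Kv f g) P) : QP (Kum ![f, g]) P := by
  obtain ⟨φ, ψ, h1⟩ := exists_iso f g
  exact qp_iso φ ψ h1 h

end KM
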