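import Pool.Agent.Lib.MP_f80667_ag.Sp.GlK
import Pool.Agent.Lib.MP_f80667_ag.Sp.Fin
import Pool.Agent.Lib.MP_f80667_ag.Sp.Dn
import Pool.Agent.Lib.MP_f80667_ag.Km.Sw

/-! Kummer varieties of products of elliptic curves: the theorem. -/

open ZC BE PE NE CV IsDedekindDomain NumberField

namespace KM

/-- All prime numbers, surfaces. -/
theorem kn_two {W : Fin 2 → WeierstrassCurve ℤ} (h : Ok₂ (W 0) (W 1)) : QP (Kn W) Set.univ := by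
  have e : (fun i => (toQ (W i)).Ψ₂Sq) = ![(toQ (W 0)).Ψ₂Sq, (toQ (W 1)).Ψ₂Sq] := by
    funext i
    fin_cases i <;> rfl
  rw [Kn, e]
  exact qp_sw (qp_ok₂ h)

/-- A positive proportion, all prime numbers, surfaces. -/
theorem nk_pos : ∃ c : ℝ, 0 < c ∧ ∃ N₀ : ℕ, ∀ N ≥ N₀,
    c * ((Eqs N).ncard : ℝ) ^ 2 ≤ (Nk 2 N Set.univ : ℝ) := by
  obtain ⟨c, hc, N₀, h⟩ := ok₂_dens
  refine ⟨c, hc, N₀, fun N hN => (h N hN).trans ?_⟩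
  refine (Nat.cast_le (α := ℝ)).2 ?_
  refine Set.ncard_le_ncard_of_injOn (fun w : WeierstrassCurve ℤ × WeierstrassCurve ℤ => ![w.1, w.2]) ?_ ?_ ?_
  · rintro ⟨A, B⟩ hw
    refine ⟨fun i => ?_, kn_two hw.2.2⟩
    fin_cases i
    · exact ⟨hw.1, hw.2.2.parts.1.ne_zero⟩
    · exact ⟨hw.2.1, hw.2.2.parts.2.1.ne_zero⟩
  · rintro ⟨A, B⟩ _ ⟨A', B'⟩ _ h
    exact Prod.ext (congrFun h 0) (congrFun h 1)
  · exact (Set.Finite.pi' fun _ : Fin 2 => eqs_fin N).subset fun W hW i => (hW.1 i).1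

/-- The proportion `1 - ε` of the curves, the prime numbers greater than `L(ε)`. -/
theorem kn_eps (ε : ℝ) (hε : 0 < ε) : ∃ (L N₀ : ℕ) (S : Set (WeierstrassCurve ℤ)),
    (∀ N ≥ N₀, (1 - ε) * ((Eqs N).ncard : ℝ) ≤ ((Eqs N ∩ S).ncard : ℝ)) ∧ (∀ A ∈ S, A.Δ ≠ 0) ∧
    ∀ (n : ℕ) (W : Fin n → WeierstrassCurve ℤ), 0 < n → (∀ i, W i ∈ S) →
      QP (Kn W) {l | L < l} := by
  obtain ⟨L, hL, N₀, h⟩ := dtO_dens hε 3
  exact ⟨L, N₀, {A | DtO L A}, h, fun A hA => hA.ne,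
    fun n W hn hW => have := NeZero.of_pos hn; main_dtK hL hW⟩

end KM
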