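import Pool.Agent.Lib.MP_f80667_ag.Km.Def
import Pool.Agent.Lib.MP_f80667_ag.Kf.Dtg

/-! Kummer varieties of products of elliptic curves over `ℚ`, by height: the definitions for the statement. -/

open ZC BE PE IsDedekindDomain NumberField

namespace KM

/-- The Kummer variety of the product of the curves over `ℚ`. -/
noncomputable def Kn {n : ℕ} (W : Fin n → WeierstrassCurve ℤ) : Vr ℚ := Kum fun i => (toQ (W i)).Ψ₂Sq

/-- The number of the families of `n` nonsingular equations in `Eqs N` whose Kummer variety satisfies `QP` for `P`. -/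
noncomputable def Nk (n N : ℕ) (P : Set ℕ) : ℕ :=
  {W : Fin n → WeierstrassCurve ℤ | (∀ i, W i ∈ Eqs N ∧ (W i).Δ ≠ 0) ∧ QP (Kn W) P}.ncard

end KM
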