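import Pool.Agent.Lib.MP_f80667_ag.Km.Lo
import Pool.Agent.Lib.MP_f80667_ag.Pe.Kg
import Pool.Agent.Lib.MP_f80667_ag.Nf.Gln
import Pool.Agent.Lib.MP_f80667_ag.Nf.Odn
import Pool.Agent.Lib.MP_f80667_ag.Kf.Dtg

/-! Zero-cycles on Kummer varieties over number fields: port of `Pe/Kg.lean`. -/

open ZC BE PE Polynomial IntermediateField IsDedekindDomain NumberField CV

namespace KM

variable {F : Type} [Field F] [NumberField F] {n : ℕ} [NeZero n]

private theorem kmg_le {v : HeightOneSpectrum (𝓞 F)} {L : Ld (FK F v) (AlgebraicClosure (FK F v))}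
    (hL : ∀ (x : F) (n : ℤ), v.valuation F x = WithZero.exp (-n) →
      L.nm (algebraMap F _ x) = L.nm (L.p : AlgebraicClosure (FK F v)) ^ n) {x : F}
    (hx : v.valuation F x ≤ 1) : L.nm (algebraMap F _ x) ≤ 1 := by
  by_cases h0 : x = 0
  · rw [h0, map_zero, L.zero]
    exact zero_le_one
  · have h1 : v.valuation F x ≠ 0 := (Valuation.ne_zero_iff _).2 h0
    obtain ⟨n, hn⟩ : ∃ n : ℤ, v.valuation F x = WithZero.exp (-n) :=
      ⟨-(WithZero.log (v.valuation F x)), by rw [neg_neg, WithZero.exp_log h1]⟩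
    rw [hL x n hn]
    have h2 : 0 ≤ n := by
      rw [hn, ← WithZero.exp_zero, WithZero.exp_le_exp] at hx
      omega
    obtain ⟨m, rfl⟩ := Int.eq_ofNat_of_zero_le h2
    rw [zpow_natCast]
    exact pow_le_one₀ L.p_pos.le L.lt.le

/-- Proof: as `dk_v` (`Pe/Kg.lean`). -/
theorem dk_v {v : HeightOneSpectrum (𝓞 F)} {f : Fin n → F[X]} (hf : ∀ i, Qf (f i))
    (hf' : ∀ i, Gv v (f i))
    (hp : ∃ p : ℕ, p.Prime ∧ v.valuation F (p : F) = WithZero.exp (-1 : ℤ))
    (h2 : v.valuation F 2 = 1) {m : ℕ} (hm : m ≠ 0) (h5 : Lg 4 m) :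
    Dm (Kum f) (FK F v) (AlgebraicClosure (FK F v)) m := by
  obtain ⟨p, hp, hpv⟩ := hp
  obtain ⟨L, hLu, hLp, hL⟩ := exists_ld F v p hp hpv
  have hc : CharZero (FK F v) := charZero_of_injective_algebraMap (algebraMap F (FK F v)).injective
  have hone : ∀ x : F, v.valuation F x = 1 → L.nm (algebraMap F _ x) = 1 := by
    intro x hx
    have h0 : v.valuation F x = WithZero.exp (-0 : ℤ) := by
      rw [hx, neg_zero, WithZero.exp_zero]
    rw [hL x 0 h0, zpow_zero]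
  have hL2 : L.p ≠ 2 := by
    intro h0
    rw [← hLp, h0, Nat.cast_ofNat, h2, ← WithZero.exp_zero] at hpv
    have := WithZero.exp_injective hpv
    omega
  exact dk_good L hL2 hf (fun i =>
    { co := fun j => kmg_le hL ((hf' i).co j)
      lc := hone _ (hf' i).lc
      bz := by
        obtain ⟨a, b, h1, h3⟩ := (hf' i).bz
        exact ⟨a, b, h1, fun j => kmg_le hL (h3 j)⟩ }) hm h5

/-- **Theorem.** Proof: as `main_Kq` (`Pe/Kg.lean`): `dk_pot`, `dk_v`, `gv_fin`, `unr_fin`, `fam_m`, `im_m`, `dm_cl`. -/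
theorem main_Kn {f : Fin n → F[X]} (hf : ∀ i, Qf (f i)) : ∃ n₀ : ℕ, QP (Kum f) {l | n₀ < l} := by
  classical
  have h1 : ∀ v : HeightOneSpectrum (𝓞 F), ∃ n₀ : ℕ, ∀ m : ℕ, m ≠ 0 → Lg n₀ m →
      Dm (Kum f) (FK F v) (AlgebraicClosure (FK F v)) m := by
    intro v
    have hc : CharZero (FK F v) :=
      charZero_of_injective_algebraMap (algebraMap F (FK F v)).injective
    obtain ⟨L, c, hc0, hc1, hL⟩ := exists_ldg F v
    exact dk_pot L hf
  choose N hN using h1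
  let B : Set (HeightOneSpectrum (𝓞 F)) := (⋃ i, {v | ¬ Gv v (f i)}) ∪
    {v | ¬ ((∃ p : ℕ, p.Prime ∧ v.valuation F (p : F) = WithZero.exp (-1 : ℤ)) ∧
      v.valuation F 2 = 1)}
  have hB : B.Finite := (Set.finite_iUnion fun i => gv_fin (hf i)).union unr_fin
  obtain ⟨n₁, hn₁⟩ : ∃ n₁ : ℕ, ∀ v ∈ B, N v ≤ n₁ := by
    obtain ⟨n₁, h⟩ := (hB.image N).bddAbove
    exact ⟨n₁, fun v hv => h ⟨v, hv, rfl⟩⟩
  have key : ∀ m : ℕ, m ≠ 0 → Sf {l | max n₁ 4 < l} m → ∀ c : Fam (Kum f),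
      ∃ c' : Fam (Kum f), c.cl = m • c'.cl := by
    intro m hm hS
    have hL : Lg (max n₁ 4) m := fun l hl hd => hS l hl hd
    have h2 : Odd m := by
      rw [← Nat.not_even_iff_odd, even_iff_two_dvd]
      intro h
      have h3 := hL 2 Nat.prime_two h
      have h4 := le_max_right n₁ 4
      omega
    refine fam_m h2 fun v => dm_cl ?_
    by_cases hv : v ∈ B
    · exact hN v m hm fun l hl hd => (hn₁ v hv).trans_lt ((le_max_left _ _).trans_lt (hL l hl hd))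
    · have h5 : ∀ i, Gv v (f i) := by
        intro i
        by_contra h
        exact hv (Or.inl (Set.mem_iUnion.2 ⟨i, h⟩))
      have h7 : (∃ p : ℕ, p.Prime ∧ v.valuation F (p : F) = WithZero.exp (-1 : ℤ)) ∧
          v.valuation F 2 = 1 := by
        by_contra h
        exact hv (Or.inr h)
      exact dk_v hf h5 h7.1 h7.2 hm fun l hl hd => (le_max_right n₁ 4).trans_lt (hL l hl hd)
  exact ⟨_, key, im_m key⟩

/-- One place. Proof: as `ku_pl` (`Pe/Kg.lean`): `exists_qmK`, `ks_X` for `M = F`, `dvP_iff` (`Cv/Dv.lean`), `dm_cl`. -/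
theorem ku_pl {W : Fin n → WeierstrassCurve F} [∀ i, (W i).IsElliptic] {K : Type} [Field K]
    [CharZero K] [Algebra F K] {m : ℕ} (hm : Odd m) (h : DvP K (fun i => Ev (W i)) m)
    (z : Zc (Kum fun i => (W i).Ψ₂Sq) K) : ∃ z' : Zc (Kum fun i => (W i).Ψ₂Sq) K, z.cl = m • z'.cl := by
  have Q : ∀ i, Qm (W i).Ψ₂Sq (W i) := fun i => (exists_qmK (W i)).some
  exact dm_cl (ks_X (M := F) (f := fun i => (W i).Ψ₂Sq) Q hm ((dvP_iff K m).1 h)) z

/-- **Kummer varieties**, all number fields. Proof: `ku_pl`, `dvP_of` (`Cv/Hat.lean`), `fam_m`, `im_m`; `2 ∉ Λ`. -/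
theorem main_Ku {W : Fin n → WeierstrassCurve F} [∀ i, (W i).IsElliptic] {Λ : Set ℕ} (h2 : 2 ∉ Λ)
    (h : ∀ l ∈ Λ, l.Prime → ∀ v : HeightOneSpectrum (𝓞 F), DvP (FK F v) (fun i => Ev (W i)) l) :
    QP (Kum fun i => (W i).Ψ₂Sq) Λ := by
  have key : ∀ m : ℕ, m ≠ 0 → Sf Λ m → ∀ c : Fam (Kum fun i => (W i).Ψ₂Sq),
      ∃ c' : Fam (Kum fun i => (W i).Ψ₂Sq), c.cl = m • c'.cl := by
    intro m hm hS
    have h3 : Odd m := by
      rw [← Nat.not_even_iff_odd, even_iff_two_dvd]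
      exact fun h' => h2 (hS 2 Nat.prime_two h')
    refine fam_m h3 fun v => ?_
    have hc : CharZero (FK F v) :=
      charZero_of_injective_algebraMap (algebraMap F (FK F v)).injective
    exact ku_pl h3 (dvP_of (fun l hl hp => h l hl hp v) m hm hS)
  exact ⟨key, im_m key⟩

end KM
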