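import Pool.Agent.Lib.MP_f80667_ag.Km.Df
import Pool.Agent.Lib.MP_f80667_ag.Km.Cy
import Pool.Agent.Lib.MP_f80667_ag.Cv.HdA
import Pool.Agent.Lib.MP_f80667_ag.Cv.HdB
import Pool.Agent.Lib.MP_f80667_ag.Pe.SiA

/-! The retraction of the exceptional spaces does not change classes of cycles: port of `Pe/Kn.lean` and of parts of `Pe/Kp.lean`. -/

open ZC BE PE Polynomial CV

namespace KM

section map

variable {F : Type} [Field F] {n : ℕ} [NeZero n] {f : Fin n → F[X]} {L : Type} [Field L]
  [Algebra F L]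

omit [NeZero n] in
private theorem nuKx_ext {P Q : Kx f L} (hx : P.x = Q.x) (ht : P.t = Q.t) : P = Q := by
  cases P
  cases Q
  dsimp only at hx ht
  subst hx ht
  rfl

private theorem nuKx_x {P : Kx f L} : P.nu.x = P.x := by
  classical
  rw [Kx.nu]
  split_ifs
  · rfl
  · rfl

private theorem nuKx_t {P : Kx f L} (h : ∀ i, qf (f i) (P.x i) = 0) :
    P.nu.t = Pi.single 0 1 := by
  classical
  rw [Kx.nu, dif_pos h]

private theorem nuKx_neg {P : Kx f L} (h : ¬ ∀ i, qf (f i) (P.x i) = 0) : P.nu = P := by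
  classical
  rw [Kx.nu, dif_neg h]

/-- Proof: as `knu_map` (`Pe/Kp.lean`). -/
theorem knu_map {N : Type} [Field N] [Algebra F N] (σ : L →ₐ[F] N) (x : (Kum f).pt L) :
    knu ((Kum f).map σ x) = (Kum f).map σ (knu x) := by
  classical
  induction x using Quotient.inductionOn with
  | h P =>
    change (Quotient.mk (Kx.sd f N) (Kx.nu (Kx.mp σ P)) : Quotient (Kx.sd f N)) =
      Quotient.mk (Kx.sd f N) (Kx.mp σ (Kx.nu P))
    congr 1
    have e1 : ∀ i, qf (f i) ((Kx.mp σ P).x i) = σ (qf (f i) (P.x i)) :=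
      fun i => qf_map (f i) σ (P.x i)
    by_cases h0 : ∀ i, qf (f i) (P.x i) = 0
    · have h0' : ∀ i, qf (f i) ((Kx.mp σ P).x i) = 0 := fun i => by
        rw [e1, h0, map_zero]
      refine nuKx_ext ?_ ?_
      · rw [nuKx_x]
        change (fun i => (σ (P.x i).1, σ (P.x i).2)) =
          fun i => (σ (P.nu.x i).1, σ (P.nu.x i).2)
        rw [nuKx_x]
      · rw [nuKx_t h0']
        change _ = fun i => σ (P.nu.t i)
        rw [nuKx_t h0]
        funext i
        by_cases hi : i = 0
        · rw [hi, Pi.single_eq_same, Pi.single_eq_same, map_one]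
        · rw [Pi.single_eq_of_ne hi, Pi.single_eq_of_ne hi, map_zero]
    · have h0' : ¬ ∀ i, qf (f i) ((Kx.mp σ P).x i) = 0 := fun h' => h0 fun i => by
        have h1 := h' i
        rw [e1] at h1
        exact (map_eq_zero σ).1 h1
      rw [nuKx_neg h0, nuKx_neg h0']

/-- Proof: as `knu_nu` (`Pe/Kp.lean`). -/
theorem knu_nu (x : (Kum f).pt L) : knu (knu x) = knu x := by
  classical
  induction x using Quotient.inductionOn with
  | h P =>
    change (Quotient.mk (Kx.sd f L) (Kx.nu (Kx.nu P)) : Quotient (Kx.sd f L)) =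
      Quotient.mk (Kx.sd f L) (Kx.nu P)
    congr 1
    by_cases h0 : ∀ i, qf (f i) (P.x i) = 0
    · have h1 : ∀ i, qf (f i) (P.nu.x i) = 0 := by
        rw [nuKx_x]
        exact h0
      refine nuKx_ext nuKx_x ?_
      rw [nuKx_t h1, nuKx_t h0]
    · rw [nuKx_neg h0, nuKx_neg h0]

end map

variable {F : Type} [Field F] {n : ℕ} [NeZero n] {f : Fin n → F[X]} {K : Type} [Field K]
  [CharZero K] [Algebra F K] {Ω : Type} [Field Ω] [Algebra K Ω] [Algebra F Ω]
  [IsScalarTower F K Ω] [IsAlgClosure K Ω]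

/-- The points of an exceptional space. Proof: as `exc_ratEq` (`Pe/Kn.lean`). `P = (x, t)`. If `t j = 0` for all `j ≠ 0` then `knu x = x`. Otherwise the line `t' j = t j` for `j ≠ 0`, `t' 0 = θ`:
`exists_p1` for `c = t 0`; the values at `w₀`, `w₁` are `(x, t)` and (after division by `θ`) `(x, (1, 0, .. , 0))`; `pvK_ratEq`. -/
theorem exc_ratEq (x : (Kum f).pt K) :
    Finsupp.single (knu ((Kum f).map (IsScalarTower.toAlgHom F K Ω) x)) 1 -
      Finsupp.single ((Kum f).map (IsScalarTower.toAlgHom F K Ω) x) 1 ∈ (Kum f).ratEq K Ω := by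
  classical
  induction x using Quotient.inductionOn with
  | h P =>
    have hac : IsAlgClosed Ω := IsAlgClosure.isAlgClosed K
    let σ : K →ₐ[F] Ω := IsScalarTower.toAlgHom F K Ω
    have hσ : ∀ a : K, σ a = algebraMap K Ω a := fun a => rfl
    by_cases h0 : ∀ i, qf (f i) ((P.mp σ).x i) = 0
    swap
    · have e : knu ((Kum f).map σ (Quotient.mk _ P)) = (Kum f).map σ (Quotient.mk _ P) := by
        change (Quotient.mk (Kx.sd f Ω) (P.mp σ).nu : Quotient (Kx.sd f Ω)) =
          Quotient.mk (Kx.sd f Ω) (P.mp σ)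
        rw [nuKx_neg h0]
      change Finsupp.single (knu ((Kum f).map σ (Quotient.mk _ P))) 1 -
        Finsupp.single ((Kum f).map σ (Quotient.mk _ P)) 1 ∈ _
      rw [e, sub_self]
      exact zero_mem _
    have nx : (P.mp σ).nu.x = (P.mp σ).x := nuKx_x
    have nt : (P.mp σ).nu.t = Pi.single 0 1 := nuKx_t h0
    by_cases h1 : ∀ j, j ≠ 0 → P.t j = 0
    · have ht0 : P.t 0 ≠ 0 := fun h => P.ht (funext fun j => by
        by_cases hj : j = 0
        · rw [hj]
          exact h
        · exact h1 j hj)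
      have e : knu ((Kum f).map σ (Quotient.mk _ P)) = (Kum f).map σ (Quotient.mk _ P) := by
        refine Quotient.sound (s := Kx.sd f Ω) ?_
        refine ⟨fun _ => 1, σ (P.t 0), fun _ => one_ne_zero, (map_ne_zero σ).2 ht0, ?_, ?_⟩
        · intro i
          rw [nx, one_mul, one_mul]
        · intro i
          rw [nt]
          change σ (P.t i) = _
          by_cases hi : i = 0
          · rw [hi, Pi.single_eq_same]
            ring
          · rw [Pi.single_eq_of_ne hi, h1 i hi, map_zero, mul_zero]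
      change Finsupp.single (knu ((Kum f).map σ (Quotient.mk _ P))) 1 -
        Finsupp.single ((Kum f).map σ (Quotient.mk _ P)) 1 ∈ _
      rw [e, sub_self]
      exact zero_mem _
    -- the exceptional space
    push Not at h1
    obtain ⟨j, hj0, hj⟩ := h1
    obtain ⟨E, i1, i2, θ, w₀, w₁, hE, hne, hw, ho0, ho1, hv0, hv1, hu⟩ :=
      exists_p1 (K := K) (Ω := Ω) (P.t 0)
    let i3 : Algebra F E := ((algebraMap K E).comp (algebraMap F K)).toAlgebra
    have i4 : IsScalarTower F K E := IsScalarTower.of_algebraMap_eq fun _ => rfl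
    have hθ : θ ≠ 0 := by
      intro h
      rw [h] at hv0
      have h2 : algebraMap K Ω (P.t 0) = 0 := hv0.uniq Hv.zero
      have h3 : P.t 0 = 0 := (map_eq_zero _).1 h2
      apply hne
      rw [h, h3, map_zero, sub_zero]
    let τ : K →ₐ[F] E := IsScalarTower.toAlgHom F K E
    have hq : ∀ v : K × K, ∀ p : F[X], qf p (σ v.1, σ v.2) = 0 → qf p (τ v.1, τ v.2) = 0 := by
      intro v p h
      rw [qf_map] at h ⊢
      rw [(map_eq_zero σ).1 h, map_zero]
    have hfx : ∀ i, qf (f i) ((P.mp τ).x i) = 0 := fun i => hq (P.x i) (f i) (h0 i)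
    -- the generic point of the line, in two coordinate systems
    let A : Kx f E :=
      { x := (P.mp τ).x
        t := fun i => if i = 0 then θ else τ (P.t i)
        hx := (P.mp τ).hx
        ht := fun h => hj ((map_eq_zero τ).1 (by
          have h2 := congrFun h j
          rwa [if_neg hj0] at h2))
        eq := fun i j => by rw [hfx, hfx, zero_mul, zero_mul] }
    let B : Kx f E :=
      { x := (P.mp τ).x
        t := fun i => if i = 0 then 1 else θ⁻¹ * τ (P.t i)
        hx := (P.mp τ).hx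
        ht := fun h => one_ne_zero (α := E) (by
          have h2 := congrFun h 0
          rwa [if_pos rfl] at h2)
        eq := fun i j => by rw [hfx, hfx, zero_mul, zero_mul] }
    have hAB : (Quotient.mk (Kx.sd f E) A) = Quotient.mk (Kx.sd f E) B := by
      refine Quotient.sound (s := Kx.sd f E) ?_
      refine ⟨fun _ => 1, θ⁻¹, fun _ => one_ne_zero, inv_ne_zero hθ, ?_, ?_⟩
      · intro i
        change (P.mp τ).x i = (1 * ((P.mp τ).x i).1, 1 * ((P.mp τ).x i).2)
        rw [one_mul, one_mul]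
      · intro i
        change (if i = 0 then 1 else θ⁻¹ * τ (P.t i)) =
          θ⁻¹ * 1 ^ 2 * (if i = 0 then θ else τ (P.t i))
        by_cases hi : i = 0
        · rw [if_pos hi, if_pos hi, one_pow, mul_one, inv_mul_cancel₀ hθ]
        · rw [if_neg hi, if_neg hi, one_pow, mul_one]
    have hrd : ∀ (w : Place K E Ω) (v : K × K), Rd w (τ v.1, τ v.2) (σ v.1, σ v.2) := by
      intro w v
      exact ⟨w.mem v.1, w.mem v.2, w.res_k v.1, w.res_k v.2⟩
    have hht : ∀ (w : Place K E Ω) (a : K), Hv w (τ a) (σ a) := by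
      intro w a
      exact ⟨w.mem a, w.res_k a⟩
    obtain ⟨m, hm0, hm1⟩ : ∃ m : Place K E Ω → ℤ, m w₀ = 1 ∧ m w₁ = -1 :=
      ⟨fun w => if w = w₀ then 1 else -1, if_pos rfl, if_neg hw.symm⟩
    obtain ⟨X0, hX0⟩ : ∃ X0 : (Kum f).pt Ω, X0 = (Kum f).map σ (Quotient.mk _ P) := ⟨_, rfl⟩
    obtain ⟨y, hy0, hy1⟩ : ∃ y : Place K E Ω → (Kum f).pt Ω, y w₀ = X0 ∧ y w₁ = knu X0 :=
      ⟨fun w => if w = w₀ then X0 else knu X0, if_pos rfl, if_neg hw.symm⟩
    have key : Pv (Kum f) K Ω (Finsupp.single X0 1 - Finsupp.single (knu X0) 1) := by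
      refine ⟨E, i1, i2, i3, i4, hE, θ - algebraMap K E (P.t 0), Quotient.mk (Kx.sd f E) A, hne,
        {w₀, w₁}, m, y, ?_, ?_, ?_⟩
      · intro w hw'
        rw [Finset.mem_insert, Finset.mem_singleton, not_or] at hw'
        exact hu w hw'.1 hw'.2
      · intro w hw'
        rw [Finset.mem_insert, Finset.mem_singleton] at hw'
        rcases hw' with h | h
        · subst h
          refine ⟨by rw [hm0]; exact ho0, A, P.mp σ, rfl, ?_, fun i => hrd _ (P.x i), ?_⟩
          · rw [hy0, hX0]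
            rfl
          · intro i
            change Hv w (if i = 0 then θ else τ (P.t i)) (σ (P.t i))
            by_cases hi : i = 0
            · rw [if_pos hi, hi]
              exact hv0
            · rw [if_neg hi]
              exact hht w (P.t i)
        · subst h
          refine ⟨by rw [hm1]; exact ho1, B, (P.mp σ).nu, hAB, ?_, ?_, ?_⟩
          · rw [hy1, hX0]
            rfl
          · rw [nx]
            exact fun i => hrd _ (P.x i)
          · rw [nt]
            intro i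
            change Hv w (if i = 0 then 1 else θ⁻¹ * τ (P.t i)) ((Pi.single 0 1 : Fin n → Ω) i)
            by_cases hi : i = 0
            · rw [if_pos hi, hi, Pi.single_eq_same]
              exact Hv.one
            · rw [if_neg hi, Pi.single_eq_of_ne hi]
              have h5 := hv1.mul (hht w (P.t i))
              rwa [zero_mul] at h5
      · rw [Finset.sum_pair hw, hm0, hm1, hy0, hy1, Finsupp.single_neg, sub_eq_add_neg]
    have h3 := neg_mem (pvK_ratEq key)
    rw [neg_sub, hX0] at h3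
    exact h3

/-- The retraction does not change classes. Proof: as `nu_ratEq` (`Pe/Kn.lean`), with `vtr`, `tr_ratEqV` (`Cv/Tc.lean`) or `Nm`, `nm_ratEq` (`Cv/HdA.lean`) in the place of `tr_ratEqK`;
`kfp`, `exists_kdesc` over `M`. -/
theorem nu_ratEq {z : (Kum f).pt Ω →₀ ℤ} (hz : z ∈ (Kum f).cyc K Ω) :
    Finsupp.mapDomain knu z - z ∈ (Kum f).ratEq K Ω := by
  classical
  let φ : ((Kum f).pt Ω →₀ ℤ) →+ ((Kum f).pt Ω →₀ ℤ) :=
    Finsupp.mapDomain.addMonoidHom knu - AddMonoidHom.id _
  have hz0 : Fx (⊥ : IntermediateField K Ω) z := fun γ _ => hz γ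
  have h1 := fx_gen (V := Kum f) (fun x => kfp (K := K) (Ω := Ω) x) hz0
  have h2 : AddSubgroup.closure {z | ∃ (M' : IntermediateField K Ω) (x : (Kum f).pt Ω),
      (⊥ : IntermediateField K Ω) ≤ M' ∧ FiniteDimensional K M' ∧ Fp (Kum f) M' x ∧
      z = Nm (⊥ : IntermediateField K Ω) M' (Finsupp.single x 1)} ≤
      ((Kum f).ratEq K Ω).comap φ := by
    rw [AddSubgroup.closure_le]
    rintro _ ⟨M, x, hle, hM, hx, rfl⟩
    have i1 : IsAlgClosure M Ω := ⟨IsAlgClosure.isAlgClosed K, inferInstance⟩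
    have i2 : IsScalarTower F M Ω := IsScalarTower.of_algebraMap_eq fun _ => rfl
    obtain ⟨P, hP⟩ : ∃ P : (Kum f).pt M, x = (Kum f).map (IsScalarTower.toAlgHom F M Ω) P := by
      refine exists_kdesc fun σ => ?_
      exact hx (σ.restrictScalars K) (sia_mem_fix M σ)
    have h4 := exc_ratEq (Ω := Ω) P
    rw [← hP] at h4
    have hknx : Fp (Kum f) M (knu x) := fun γ hγ => by
      have h5 : (Kum f).act γ (knu x) = knu ((Kum f).act γ x) := (knu_map _ x).symm
      rw [h5, hx γ hγ]
    have h6 : Fx M (Finsupp.single (knu x) 1 - Finsupp.single x 1 : (Kum f).pt Ω →₀ ℤ) :=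
      (fx_single hknx 1).sub (fx_single hx 1)
    have h7 := nm_ratEq h4 h6
    obtain ⟨s, -, -, -, h₃⟩ := nm_rep hle
    change Finsupp.mapDomain knu (Nm (⊥ : IntermediateField K Ω) M
      (Finsupp.single x 1 : (Kum f).pt Ω →₀ ℤ)) -
      Nm (⊥ : IntermediateField K Ω) M (Finsupp.single x 1) ∈ (Kum f).ratEq K Ω
    rw [h₃] at h7 ⊢
    have h8 : Finsupp.mapDomain knu (∑ γ ∈ s, γ • (Finsupp.single x 1 : (Kum f).pt Ω →₀ ℤ)) =
        ∑ γ ∈ s, γ • (Finsupp.single (knu x) 1 : (Kum f).pt Ω →₀ ℤ) := by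
      rw [← Finsupp.mapDomain.addMonoidHom_apply, map_sum]
      refine Finset.sum_congr rfl fun γ _ => ?_
      rw [Finsupp.mapDomain.addMonoidHom_apply, smul_single, Finsupp.mapDomain_single,
        smul_single]
      exact congrArg (fun p => (Finsupp.single p 1 : (Kum f).pt Ω →₀ ℤ)) (knu_map _ x)
    have h9 : ∑ γ ∈ s, (γ • (Finsupp.single (knu x) 1 : (Kum f).pt Ω →₀ ℤ) -
        γ • (Finsupp.single x 1 : (Kum f).pt Ω →₀ ℤ)) =
        ∑ γ ∈ s, γ • (Finsupp.single (knu x) 1 - Finsupp.single x 1 : (Kum f).pt Ω →₀ ℤ) :=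
      Finset.sum_congr rfl fun γ _ => (smul_sub _ _ _).symm
    rw [h8, ← Finset.sum_sub_distrib, h9]
    exact h7
  exact h2 h1

end KM
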