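import Pool.Agent.Lib.MP_f80667_ag.Km.Df

/-! The map from the product of the curves to the Kummer variety: port of the last part of `Pe/Kp.lean`. -/

open ZC BE PE Polynomial

namespace KM

variable {F : Type} [Field F] {n : ℕ} [NeZero n] {f : Fin n → F[X]} {M : Type} [Field M]
  [Algebra F M] {W : Fin n → WeierstrassCurve M} {L : Type} [Field L] [Algebra F L] [Algebra M L]
  [IsScalarTower F M L]

omit [NeZero n] [Algebra M L] [IsScalarTower F M L] in
private theorem kx_ext {P Q : Kx f L} (hx : P.x = Q.x) (ht : P.t = Q.t) : P = Q := by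
  cases P
  cases Q
  dsimp only at hx ht
  subst hx ht
  rfl

omit [Algebra F L] [IsScalarTower F M L] in
private theorem cne' {g : F[X]} {U : WeierstrassCurve M} (Q : Qm g U) : algebraMap M L Q.c ≠ 0 :=
  (map_ne_zero (algebraMap M L)).2 Q.hc

omit [Algebra F L] [IsScalarTower F M L] in
private theorem mv_map' {g : F[X]} {U : WeierstrassCurve M} (Q : Qm g U) {N : Type} [Field N]
    [Algebra M N] (σ : L →ₐ[M] N) (v : L × L) :
    Q.mv (σ v.1, σ v.2) = (σ (Q.mv v).1, σ (Q.mv v).2) := by
  unfold Qm.mv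
  refine Prod.ext ?_ ?_
  · dsimp only
    rw [map_add, map_mul, map_mul, AlgHom.commutes, AlgHom.commutes]
  · dsimp only
    rw [map_add, map_mul, map_mul, AlgHom.commutes, AlgHom.commutes]

omit [Algebra F L] [IsScalarTower F M L] in
private theorem mv_smul' {g : F[X]} {U : WeierstrassCurve M} (Q : Qm g U) (a : L) (v : L × L) :
    Q.mv (a * v.1, a * v.2) = (a * (Q.mv v).1, a * (Q.mv v).2) := by
  unfold Qm.mv
  refine Prod.ext ?_ ?_
  · dsimp only
    ring
  · dsimp only
    ring

theorem kpi_map (Q : ∀ i, Qm (f i) (W i)) {N : Type} [Field N] [Algebra F N] [Algebra M N]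
    [IsScalarTower F M N] (σ : L →ₐ[M] N) (P : ∀ i, Pt (W i) L) :
    (Kum f).map (σ.restrictScalars F) (kpi Q P) = kpi Q (fun i => Pt.map (W i) σ (P i)) := by
  classical
  change (Quotient.mk (Kx.sd f N) (Kx.mp (σ.restrictScalars F) (kpc Q P)) :
      Quotient (Kx.sd f N)) = Quotient.mk (Kx.sd f N) (kpc Q fun i => Pt.map (W i) σ (P i))
  congr 1
  refine kx_ext (funext fun i => ?_) (funext fun i => ?_)
  · change (σ ((Q i).mv (xh (P i))).1, σ ((Q i).mv (xh (P i))).2) =
      (Q i).mv (xh (Pt.map (W i) σ (P i)))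
    rw [xh_map, mv_map']
  · change σ (kt Q P i) = kt Q (fun i => Pt.map (W i) σ (P i)) i
    rw [kt, kt]
    simp only [eta_map, map_eq_zero]
    split_ifs with h
    · rw [Pi.single_apply, Pi.single_apply]
      split_ifs
      · exact map_one σ
      · exact map_zero σ
    · simp only [map_mul, AlgHom.commutes]

/-- Proof: `Qm.sq`: all forms vanish if and only if all `eta` do. -/
theorem knu_kpi (Q : ∀ i, Qm (f i) (W i)) (P : ∀ i, Pt (W i) L) : knu (kpi Q P) = kpi Q P := by
  classical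
  change (Quotient.mk (Kx.sd f L) (Kx.nu (kpc Q P)) : Quotient (Kx.sd f L)) =
    Quotient.mk (Kx.sd f L) (kpc Q P)
  congr 1
  by_cases h0 : ∀ i, qf (f i) ((kpc Q P).x i) = 0
  · rw [Kx.nu, dif_pos h0]
    refine kx_ext rfl ?_
    change (Pi.single 0 1 : Fin n → L) = kt Q P
    rw [kt, if_pos]
    intro i
    have h1 : qf (f i) ((Q i).mv (xh (P i))) = 0 := h0 i
    rw [Qm.sq] at h1
    exact (mul_eq_zero.1 (pow_eq_zero_iff two_ne_zero |>.1 h1)).resolve_left (cne' (Q i))
  · rw [Kx.nu, dif_neg h0]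

theorem kpi_neg (Q : ∀ i, Qm (f i) (W i)) (P : ∀ i, Pt (W i) L) :
    kpi Q (fun i => -P i) = kpi Q P := by
  classical
  refine Quotient.sound (s := Kx.sd f L) ?_
  by_cases h : ∀ i, eta (P i) = 0
  · refine ⟨fun _ => 1, 1, fun _ => one_ne_zero, one_ne_zero, fun i => ?_, fun i => ?_⟩
    · change (Q i).mv (xh (P i)) =
        (1 * ((Q i).mv (xh (-P i))).1, 1 * ((Q i).mv (xh (-P i))).2)
      rw [xh_neg, one_mul, one_mul]
    · change kt Q P i = 1 * 1 ^ 2 * kt Q (fun i => -P i) i
      have h' : ∀ i, eta (-P i) = 0 := fun i => by rw [eta_neg, h i, neg_zero]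
      rw [kt, kt, if_pos h, if_pos h', one_pow, mul_one, one_mul]
  · refine ⟨fun _ => 1, -1, fun _ => one_ne_zero, neg_ne_zero.2 one_ne_zero, fun i => ?_,
      fun i => ?_⟩
    · change (Q i).mv (xh (P i)) =
        (1 * ((Q i).mv (xh (-P i))).1, 1 * ((Q i).mv (xh (-P i))).2)
      rw [xh_neg, one_mul, one_mul]
    · change kt Q P i = -1 * 1 ^ 2 * kt Q (fun i => -P i) i
      have h' : ¬ ∀ i, eta (-P i) = 0 := fun h0 => h fun i => by
        have h1 := h0 i
        rw [eta_neg] at h1
        exact neg_eq_zero.1 h1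
      rw [kt, kt, if_neg h, if_neg h']
      beta_reduce
      rw [eta_neg]
      ring

/-- Proof: as `kpi_surj` (`Pe/Kp.lean`). `mv_surj`, `xh_surj`: `x i = a i (mv (xh (P i)))`, so `(a i ^ 2 c i eta (P i) t j) ^ 2 = (a j ^ 2 c j eta (P j) t i) ^ 2`. Let `t j ≠ 0`. If `eta (P j) = 0` all forms vanish.
Otherwise change the signs of the `P i`, `i ≠ j`: `a i ^ 2 c i eta (P i) t j = a j ^ 2 c j eta (P j) t i` for all `i`. -/
theorem kpi_surj [CharZero L] [IsAlgClosed L] [∀ i, (W i).IsElliptic]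
    (Q : ∀ i, Qm (f i) (W i)) (x : (Kum f).pt L) : ∃ P : ∀ i, Pt (W i) L, kpi Q P = knu x := by
  classical
  induction x using Quotient.inductionOn with
  | h K =>
    choose v hv using fun i => (Q i).mv_surj (K.x i)
    have hv0 : ∀ i, v i ≠ 0 := by
      intro i h0
      apply K.hx i
      rw [← hv i, h0]
      unfold Qm.mv
      simp only [Prod.fst_zero, Prod.snd_zero, mul_zero, add_zero]
      rfl
    choose P a ha hP using fun i => xh_surj (W := W i) (hv0 i)
    have ex : ∀ i, K.x i =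
        (a i * ((Q i).mv (xh (P i))).1, a i * ((Q i).mv (xh (P i))).2) := fun i => by
      rw [← hv i, hP i, mv_smul']
    have e1 : ∀ i, qf (f i) (K.x i) = a i ^ 4 * (algebraMap M L (Q i).c * eta (P i)) ^ 2 :=
      fun i => by rw [ex i, qf_mul, (Q i).sq]
    have e0 : ∀ i, qf (f i) (K.x i) = 0 → eta (P i) = 0 := fun i h0 => by
      rw [e1] at h0
      have h3 := (mul_eq_zero.1 h0).resolve_left (pow_ne_zero 4 (ha i))
      exact (mul_eq_zero.1 (pow_eq_zero_iff two_ne_zero |>.1 h3)).resolve_left (cne' (Q i))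
    by_cases h0 : ∀ i, qf (f i) (K.x i) = 0
    · refine ⟨P, Quotient.sound (s := Kx.sd f L) ?_⟩
      rw [Kx.nu, dif_pos h0]
      refine ⟨a, (a 0 ^ 2)⁻¹, ha, inv_ne_zero (pow_ne_zero 2 (ha 0)), ex, fun i => ?_⟩
      change (Pi.single 0 1 : Fin n → L) i = (a 0 ^ 2)⁻¹ * a i ^ 2 * kt Q P i
      rw [kt, if_pos fun i => e0 i (h0 i)]
      rcases eq_or_ne i 0 with rfl | hi
      · rw [Pi.single_eq_same, inv_mul_cancel₀ (pow_ne_zero 2 (ha 0)), mul_one]
      · rw [Pi.single_eq_of_ne hi, mul_zero]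
    · obtain ⟨j, hj⟩ : ∃ j, K.t j ≠ 0 := by
        by_contra hcon
        push Not at hcon
        exact K.ht (funext hcon)
      have hPj : eta (P j) ≠ 0 := by
        intro hz
        apply h0
        intro i
        have h1 := K.eq i j
        rw [e1 j, hz, mul_zero, zero_pow two_ne_zero, mul_zero, zero_mul] at h1
        exact (mul_eq_zero.1 h1).resolve_right (pow_ne_zero 2 hj)
      have hsq : ∀ i, (a i ^ 2 * (algebraMap M L (Q i).c * eta (P i)) * K.t j) ^ 2 =
          (a j ^ 2 * (algebraMap M L (Q j).c * eta (P j)) * K.t i) ^ 2 := fun i => by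
        have h1 := K.eq i j
        rw [e1, e1] at h1
        linear_combination h1
      have hR : ∀ i, ∃ R : Pt (W i) L, xh R = xh (P i) ∧
          a i ^ 2 * (algebraMap M L (Q i).c * eta R) * K.t j =
            a j ^ 2 * (algebraMap M L (Q j).c * eta (P j)) * K.t i := fun i => by
        rcases sq_eq_sq_iff_eq_or_eq_neg.1 (hsq i) with h1 | h1
        · exact ⟨P i, rfl, h1⟩
        · refine ⟨-P i, xh_neg _, ?_⟩
          rw [eta_neg]
          linear_combination -h1
      choose R hR1 hR2 using hR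
      refine ⟨R, Quotient.sound (s := Kx.sd f L) ?_⟩
      rw [Kx.nu, dif_neg h0]
      have hne : a j ^ 2 * (algebraMap M L (Q j).c * eta (P j)) ≠ 0 :=
        mul_ne_zero (pow_ne_zero 2 (ha j)) (mul_ne_zero (cne' (Q j)) hPj)
      have hRj : ¬ ∀ i, eta (R i) = 0 := fun h1 => by
        have h2 := hR2 j
        rw [h1 j, mul_zero, mul_zero, zero_mul] at h2
        exact mul_ne_zero hne hj h2.symm
      refine ⟨a, K.t j / (a j ^ 2 * (algebraMap M L (Q j).c * eta (P j))), ha,
        div_ne_zero hj hne, fun i => ?_, fun i => ?_⟩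
      · change K.x i = (a i * ((Q i).mv (xh (R i))).1, a i * ((Q i).mv (xh (R i))).2)
        rw [hR1]
        exact ex i
      · change K.t i = K.t j / (a j ^ 2 * (algebraMap M L (Q j).c * eta (P j))) * a i ^ 2 *
          kt Q R i
        rw [kt, if_neg hRj]
        beta_reduce
        refine mul_left_cancel₀ hne ?_
        rw [← hR2 i, mul_assoc (K.t j / _), ← mul_assoc _ (K.t j / _), mul_div_cancel₀ _ hne]
        ring

/-- Proof: as `kpi_inj` (`Pe/Kp.lean`). `mv_inj`, `xh_eq`: `P' i = ± P i`, the factors `a i` are `1`; if not all `eta (P i)` vanish, `eta (P' i) = c eta (P i)` for all `i` and `c = ± 1`; `xh_eta`. -/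
theorem kpi_inj [CharZero L] (Q : ∀ i, Qm (f i) (W i)) {P P' : ∀ i, Pt (W i) L}
    (h : kpi Q P' = kpi Q P) : P' = P ∨ P' = fun i => -P i := by
  classical
  obtain ⟨a, c, ha, hc, h1, h2⟩ : (kpc Q P).Rel (kpc Q P') :=
    Quotient.exact (s := Kx.sd f L) h.symm
  have h1' : ∀ i, (Q i).mv (xh (P' i)) =
      (a i * ((Q i).mv (xh (P i))).1, a i * ((Q i).mv (xh (P i))).2) := h1
  have h2' : ∀ i, kt Q P' i = c * a i ^ 2 * kt Q P i := h2
  have h3 : ∀ i, xh (P' i) = (a i * (xh (P i)).1, a i * (xh (P i)).2) := fun i =>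
    (Q i).mv_inj (h1' i)
  have ea : ∀ i, a i = 1 := fun i => (xh_eq (h3 i)).1
  have hP : ∀ i, P' i = P i ∨ P' i = -P i := fun i => (xh_eq (h3 i)).2
  have hx : ∀ i, xh (P' i) = xh (P i) := fun i => by
    rw [h3 i, ea i, one_mul, one_mul]
  by_cases hz : ∀ i, eta (P i) = 0
  · left
    funext i
    rcases hP i with h4 | h4
    · exact h4
    · rw [h4]
      exact xh_eta (xh_neg (P i)) (by rw [eta_neg, hz i, neg_zero])
  · have hz' : ¬ ∀ i, eta (P' i) = 0 := fun h0 => hz fun i => by
      have h4 := h0 i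
      rcases hP i with h5 | h5
      · rwa [h5] at h4
      · rw [h5, eta_neg] at h4
        exact neg_eq_zero.1 h4
    have h4 : ∀ i, eta (P' i) = c * eta (P i) := fun i => by
      have h5 := h2' i
      rw [kt, kt, if_neg hz, if_neg hz', ea i, one_pow, mul_one] at h5
      refine mul_left_cancel₀ (cne' (L := L) (Q i)) ?_
      linear_combination h5
    push Not at hz
    obtain ⟨j, hj⟩ := hz
    rcases hP j with h5 | h5
    · have c1 : c = 1 := by
        have h6 := h4 j
        rw [h5] at h6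
        exact (mul_left_eq_self₀.1 h6.symm).resolve_right hj
      left
      funext i
      exact xh_eta (hx i) (by rw [h4 i, c1, one_mul])
    · have c1 : c = -1 := by
        have h6 := h4 j
        rw [h5, eta_neg] at h6
        refine mul_right_cancel₀ hj ?_
        rw [← h6, neg_one_mul]
      right
      funext i
      exact xh_eta ((hx i).trans (xh_neg _).symm) (by rw [h4 i, c1, eta_neg, neg_one_mul])

end KM
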