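import Pool.Agent.Lib.MP_f80667_ag.Km.Nu
import Pool.Agent.Lib.MP_f80667_ag.Km.Pi
import Pool.Agent.Lib.MP_f80667_ag.Pe.Kr
import Pool.Agent.Lib.MP_f80667_ag.Cv.Pi

/-! The map from the product to the Kummer variety and rational equivalence: port of `Pe/Kr.lean`. -/

open ZC BE PE Polynomial CV

namespace KM

section val

variable {F M : Type} [Field F] [Field M] [Algebra F M] {n : ℕ} [NeZero n] {f : Fin n → F[X]}
  {W : Fin n → WeierstrassCurve M} {K L Ω : Type} [Field K] [Field L] [Field Ω] [Algebra K L]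
  [Algebra K Ω] [Algebra M K] [Algebra M L] [Algebra M Ω] [IsScalarTower M K L]
  [IsScalarTower M K Ω] [Algebra F K] [Algebra F L] [Algebra F Ω] [IsScalarTower F K L]
  [IsScalarTower F K Ω] [IsScalarTower F M L] [IsScalarTower F M Ω]

private theorem pr_mv {N : Type} [Field N] [Algebra M N] {f : F[X]} {W : WeierstrassCurve M}
    (Q : Qm f W) (a : N) (v : N × N) :
    Q.mv (a * v.1, a * v.2) = (a * (Q.mv v).1, a * (Q.mv v).2) := by
  unfold Qm.mv
  refine Prod.ext ?_ ?_
  · dsimp only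
    ring
  · dsimp only
    ring

private theorem pr_ne {N : Type} [Field N] {a : N} (ha : a ≠ 0) {v : N × N} (hv : v ≠ 0) :
    ((a * v.1, a * v.2) : N × N) ≠ 0 := by
  intro h0
  apply hv
  exact Prod.ext ((mul_eq_zero.1 (congrArg Prod.fst h0)).resolve_left ha)
    ((mul_eq_zero.1 (congrArg Prod.snd h0)).resolve_left ha)

/-- Proportional vectors. -/
private theorem pr_prop {N : Type} [Field N] {n : ℕ} {u t : Fin n → N} (hu : u ≠ 0) (ht : t ≠ 0)
    (h : ∀ i j, t i * u j = t j * u i) : ∃ e : N, e ≠ 0 ∧ ∀ i, u i = e * t i := by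
  obtain ⟨j, hj⟩ : ∃ j, t j ≠ 0 := by
    by_contra hc
    push Not at hc
    exact ht (funext hc)
  have h1 : ∀ i, u i = u j / t j * t i := by
    intro i
    rw [div_mul_eq_mul_div, eq_div_iff hj, mul_comm, h j i, mul_comm]
  refine ⟨u j / t j, fun h0 => hu (funext fun i => ?_), h1⟩
  rw [h1 i, h0, zero_mul]
  rfl

/-- The value of `kpi P`. Proof: as `kpi_red` (`Pe/Kr.lean`): `xh_red` for all components with factors `a i`; `hv_prim` for `(a i) ^ 2 t i`, `t = kt P`; `mv_red`. -/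
theorem kpi_red (w : Place K L Ω) (Q : ∀ i, Qm (f i) (W i)) {P : ∀ i, Pt (W i) L}
    {P' : ∀ i, Pt (W i) Ω} (h : ∀ i, Pt.Red (W i) w (P i) (P' i)) :
    ∃ y, (Kum f).red w (kpi Q P) y ∧ knu y = kpi Q P' := by
  classical
  choose a ha hax hae using fun i => xh_red w (h i)
  have ht0 : (fun i => a i ^ 2 * kt Q P i) ≠ 0 := fun h0 => kt_ne Q P
    (funext fun i => (mul_eq_zero.1 (congrFun h0 i)).resolve_left (pow_ne_zero 2 (ha i)))
  obtain ⟨c, τ, hc, hτ, hct⟩ := hv_prim w ht0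
  have hct' : ∀ i, Hv w (c * a i ^ 2 * kt Q P i) (τ i) := by
    intro i
    rw [mul_assoc]
    exact hct i
  have rx : ∀ i, Rd w (a i * ((Q i).mv (xh (P i))).1, a i * ((Q i).mv (xh (P i))).2)
      ((Q i).mv (xh (P' i))) := by
    intro i
    rw [← pr_mv]
    exact mv_red w (Q i) (hax i)
  have eL : ∀ i j, qf (f i) (a i * ((Q i).mv (xh (P i))).1, a i * ((Q i).mv (xh (P i))).2) *
      (c * a j ^ 2 * kt Q P j) ^ 2 =
      qf (f j) (a j * ((Q j).mv (xh (P j))).1, a j * ((Q j).mv (xh (P j))).2) *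
      (c * a i ^ 2 * kt Q P i) ^ 2 := by
    intro i j
    rw [qf_mul, qf_mul]
    linear_combination (a i ^ 4 * a j ^ 4 * c ^ 2) * kt_eq Q P i j
  have eO : ∀ i j, qf (f i) ((Q i).mv (xh (P' i))) * τ j ^ 2 =
      qf (f j) ((Q j).mv (xh (P' j))) * τ i ^ 2 := by
    intro i j
    have k1 := (rd_qf w (f i) (rx i)).mul ((hct' j).pow 2)
    have k2 := (rd_qf w (f j) (rx j)).mul ((hct' i).pow 2)
    rw [eL i j] at k1
    exact k1.uniq k2
  let R : Kx f L :=
    { x := fun i => (a i * ((Q i).mv (xh (P i))).1, a i * ((Q i).mv (xh (P i))).2)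
      t := fun i => c * a i ^ 2 * kt Q P i
      hx := fun i => pr_ne (ha i) ((Q i).mv_ne (xh_ne _))
      ht := fun h0 => kt_ne Q P (funext fun i =>
        (mul_eq_zero.1 (congrFun h0 i)).resolve_left (mul_ne_zero hc (pow_ne_zero 2 (ha i))))
      eq := eL }
  let Y : Kx f Ω :=
    { x := fun i => (Q i).mv (xh (P' i))
      t := τ
      hx := fun i => (Q i).mv_ne (xh_ne _)
      ht := hτ
      eq := eO }
  have hR : (kpc Q P).Rel R := ⟨a, c, ha, hc, fun i => rfl, fun i => rfl⟩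
  refine ⟨Quotient.mk _ Y, ⟨R, Y, Quotient.sound hR, rfl, rx, hct'⟩, ?_⟩
  change (Quotient.mk (Kx.sd f Ω) (Kx.nu Y) : Quotient (Kx.sd f Ω)) =
    Quotient.mk (Kx.sd f Ω) (kpc Q P')
  have qx : ∀ i, qf (f i) (Y.x i) = (algebraMap M Ω (Q i).c * eta (P' i)) ^ 2 :=
    fun i => (Q i).sq (P' i)
  have hc1 : ∀ i, algebraMap M Ω (Q i).c ≠ 0 := fun i =>
    (map_ne_zero (algebraMap M Ω)).2 (Q i).hc
  by_cases h0 : ∀ i, eta (P' i) = 0
  · have h1 : ∀ i, qf (f i) (Y.x i) = 0 := by
      intro i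
      rw [qx, h0 i, mul_zero]
      exact zero_pow two_ne_zero
    refine Quotient.sound ⟨fun _ => 1, 1, fun _ => one_ne_zero, one_ne_zero, fun i => ?_,
      fun i => ?_⟩
    · rw [Kx.nu, dif_pos h1]
      change (Q i).mv (xh (P' i)) = (1 * ((Q i).mv (xh (P' i))).1, 1 * ((Q i).mv (xh (P' i))).2)
      rw [one_mul, one_mul]
    · rw [Kx.nu, dif_pos h1]
      change kt Q P' i = 1 * 1 ^ 2 * (Pi.single 0 1 : Fin n → Ω) i
      rw [kt, if_pos h0, one_pow, mul_one, one_mul]
  · have h1 : ¬ ∀ i, qf (f i) (Y.x i) = 0 := by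
      intro h2
      refine h0 fun i => ?_
      have h3 := h2 i
      rw [qx] at h3
      exact (mul_eq_zero.1 (pow_eq_zero_iff two_ne_zero |>.1 h3)).resolve_left (hc1 i)
    have kO : kt Q P' = fun i => algebraMap M Ω (Q i).c * eta (P' i) := by
      rw [kt, if_neg h0]
    have eT : ∀ i j, c * a i ^ 2 * kt Q P i * (algebraMap M L (Q j).c * (a j ^ 2 * eta (P j))) =
        c * a j ^ 2 * kt Q P j * (algebraMap M L (Q i).c * (a i ^ 2 * eta (P i))) := by
      intro i j
      rw [kt]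
      split_ifs with h2
      · rw [h2 i, h2 j]
        ring
      · dsimp only
        ring
    have eτ : ∀ i j, τ i * kt Q P' j = τ j * kt Q P' i := by
      intro i j
      rw [kO]
      have k1 := (hct' i).mul ((plr_hv w (Q j).c).mul (hae j))
      have k2 := (hct' j).mul ((plr_hv w (Q i).c).mul (hae i))
      rw [eT i j] at k1
      exact k1.uniq k2
    obtain ⟨e, he, hte⟩ := pr_prop (kt_ne Q P') hτ eτ
    refine Quotient.sound ⟨fun _ => 1, e, fun _ => one_ne_zero, he, fun i => ?_, fun i => ?_⟩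
    · rw [Kx.nu, dif_neg h1]
      change (Q i).mv (xh (P' i)) = (1 * ((Q i).mv (xh (P' i))).1, 1 * ((Q i).mv (xh (P' i))).2)
      rw [one_mul, one_mul]
    · rw [Kx.nu, dif_neg h1]
      change kt Q P' i = e * 1 ^ 2 * τ i
      rw [one_pow, mul_one, hte]

end val

section rat

variable {F M : Type} [Field F] [Field M] [Algebra F M] {n : ℕ} [NeZero n] {f : Fin n → F[X]}
  {W : Fin n → WeierstrassCurve M} {K : Type} [Field K] [CharZero K] [Algebra F K] [Algebra M K]
  [IsScalarTower F M K] {Ω : Type} [Field Ω] [Algebra K Ω] [Algebra F Ω] [Algebra M Ω]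
  [IsScalarTower F K Ω] [IsScalarTower M K Ω] [IsScalarTower F M Ω] [IsAlgClosure K Ω]

/-- The push-forward of a cycle rationally equivalent to `0`. Proof: as `kpi_ratEq` (`Pe/Kr.lean`). -/
theorem kpi_ratEq (Q : ∀ i, Qm (f i) (W i)) {z : (Vpi fun i => Ev (W i)).pt Ω →₀ ℤ}
    (hz : z ∈ (Vpi fun i => Ev (W i)).ratEq K Ω) :
    Finsupp.mapDomain (fun P : ∀ i, Pt (W i) Ω => kpi Q P) z ∈ (Kum f).ratEq K Ω := by
  classical
  have h : (Vpi fun i => Ev (W i)).ratEq K Ω ≤ ((Kum f).ratEq K Ω).comap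
      (Finsupp.mapDomain.addMonoidHom (fun P : ∀ i, Pt (W i) Ω => kpi Q P)) := by
    rw [Vr.ratEq, AddSubgroup.closure_le]
    rintro _ ⟨E, i1, i2, i3, i4, hE, G, x, hG, hx, S, m, y, hS, hv, rfl⟩
    change Finsupp.mapDomain (fun P : ∀ i, Pt (W i) Ω => kpi Q P) _ ∈ (Kum f).ratEq K Ω
    let i5 : Algebra F E := ((algebraMap K E).comp (algebraMap F K)).toAlgebra
    have i6 : IsScalarTower F K E := IsScalarTower.of_algebraMap_eq fun _ => rfl
    have i7 : IsScalarTower F M E := by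
      refine IsScalarTower.of_algebraMap_eq fun a => ?_
      rw [IsScalarTower.algebraMap_apply F K E, IsScalarTower.algebraMap_apply M K E,
        ← IsScalarTower.algebraMap_apply F M K]
    have i8 : IsScalarTower F M (AlgebraicClosure E) := by
      refine IsScalarTower.of_algebraMap_eq fun a => ?_
      rw [IsScalarTower.algebraMap_apply F E (AlgebraicClosure E),
        IsScalarTower.algebraMap_apply M E (AlgebraicClosure E),
        ← IsScalarTower.algebraMap_apply F M E]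
    let x' : ∀ i, Pt (W i) (AlgebraicClosure E) := x
    let y' : Place K E Ω → ∀ i, Pt (W i) Ω := y
    have h1 : ∀ w ∈ S, ∃ u : (Kum f).pt Ω, (Kum f).IsVal w (kpi Q x') u ∧
        knu u = kpi Q (y' w) := by
      intro w hw
      obtain ⟨W', h2, h3, h4⟩ := (hv w hw).2
      obtain ⟨u, hu, hu'⟩ := kpi_red W' Q (P := x') (P' := y' w) fun i => h4 i
      exact ⟨u, ⟨W', h2, h3, hu⟩, hu'⟩
    have hne : Nonempty ((Kum f).pt Ω) := ⟨kpi Q (fun i => (0 : Pt (W i) Ω))⟩
    choose! u hu hu' using h1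
    have h2 : ∑ w ∈ S, Finsupp.single (u w) (m w) ∈ (Kum f).ratEq K Ω := by
      refine AddSubgroup.subset_closure ⟨E, i1, i2, i5, i6, hE, G, kpi Q x', hG, fun σ => ?_, S,
        m, u, hS, fun w hw => ⟨(hv w hw).1, hu w hw⟩, rfl⟩
      have h3 := kpi_map Q (σ.restrictScalars M : AlgebraicClosure E →ₐ[M] AlgebraicClosure E) x'
      refine Eq.trans h3 ?_
      exact congrArg (fun P : ∀ i, Pt (W i) (AlgebraicClosure E) => kpi Q P) (hx σ)
    have h3 := add_mem (nu_ratEq (ratEq_cyc h2)) h2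
    rw [sub_add_cancel] at h3
    have e : Finsupp.mapDomain (fun P : ∀ i, Pt (W i) Ω => kpi Q P)
        (∑ w ∈ S, Finsupp.single (y' w) (m w)) =
        Finsupp.mapDomain knu (∑ w ∈ S, Finsupp.single (u w) (m w)) := by
      rw [Finsupp.mapDomain_finsetSum, Finsupp.mapDomain_finsetSum]
      refine Finset.sum_congr rfl fun w hw => ?_
      rw [Finsupp.mapDomain_single, Finsupp.mapDomain_single, hu' w hw]
    exact e ▸ h3
  exact h hz

end rat

end KM
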