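import Pool.Agent.Lib.MP_f80667_ag.Km.Def
import Pool.Agent.Lib.MP_f80667_ag.Pe.Kt

/-! The values of the points of the Kummer varieties at places: port of `Pe/Kt.lean`. -/

open ZC BE PE Polynomial

namespace KM

section val

variable {K L Ω : Type} [Field K] [Field L] [Field Ω] [Algebra K L] [Algebra K Ω] {n : ℕ}

/-- Divide by the coordinate of largest value. Proof: by induction on `n`, or: for two coordinates one of the quotients is in the valuation ring (`Hv.of_not_mem`), so there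
is `j` with `t j ≠ 0` and `t i / t j ∈ w.V` for all `i` (`Finite.exists_max` or induction over the finite set of indices); `a = (t j)⁻¹`. -/
theorem hv_prim (w : Place K L Ω) {t : Fin n → L} (ht : t ≠ 0) : ∃ (a : L) (u : Fin n → Ω),
    a ≠ 0 ∧ u ≠ 0 ∧ ∀ i, Hv w (a * t i) (u i) := by
  obtain ⟨i₀, hi₀⟩ : ∃ i, t i ≠ 0 := by
    by_contra hc
    push Not at hc
    exact ht (funext hc)
  have : Nonempty (Fin n) := ⟨i₀⟩
  obtain ⟨j, hj⟩ := Finite.exists_max fun i => w.V.valuation (t i)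
  have htj : t j ≠ 0 := by
    intro h0
    have h1 := hj i₀
    simp only [h0, map_zero] at h1
    exact hi₀ ((map_eq_zero w.V.valuation).1 (le_zero_iff.1 h1))
  have hv0 : w.V.valuation (t j) ≠ 0 := fun h0 => htj ((map_eq_zero w.V.valuation).1 h0)
  have hm : ∀ i, (t j)⁻¹ * t i ∈ w.V := by
    intro i
    rw [← ValuationSubring.valuation_le_one_iff, map_mul, map_inv₀]
    calc (w.V.valuation (t j))⁻¹ * w.V.valuation (t i)
        ≤ (w.V.valuation (t j))⁻¹ * w.V.valuation (t j) := mul_le_mul_right (hj i) _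
      _ = 1 := inv_mul_cancel₀ hv0
  refine ⟨(t j)⁻¹, fun i => w.res ⟨_, hm i⟩, inv_ne_zero htj, fun h0 => ?_,
    fun i => Hv.of_mem (hm i)⟩
  have h2 : Hv w ((t j)⁻¹ * t j) (0 : Ω) := ⟨hm j, congrFun h0 j⟩
  rw [inv_mul_cancel₀ htj] at h2
  exact one_ne_zero (Hv.one.uniq h2)

/-- A factor between two primitive vectors is a unit. Proof: as `rd_unit` (`Pe/Kt.lean`). -/
theorem hv_unit (w : Place K L Ω) {t : Fin n → L} {u u' : Fin n → Ω} {a : L} (ha : a ≠ 0)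
    (hu : u ≠ 0) (hu' : u' ≠ 0) (h : ∀ i, Hv w (t i) (u i)) (h' : ∀ i, Hv w (a * t i) (u' i)) :
    ∃ r : Ω, r ≠ 0 ∧ Hv w a r := by
  obtain ⟨j, hj⟩ : ∃ j, u j ≠ 0 := by
    by_contra hc
    push Not at hc
    exact hu (funext hc)
  have h3 := (h' j).div (h j) hj
  rw [mul_div_cancel_right₀ _ ((h j).ne hj)] at h3
  refine ⟨_, fun h0 => hu' (funext fun i => ?_), h3⟩
  rw [h0] at h3
  have e1 := (h3.mul (h i)).uniq (h' i)
  rw [zero_mul] at e1
  exact e1.symm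

variable {F : Type} [Field F] {f : Fin n → F[X]} [Algebra F K] [Algebra F L] [Algebra F Ω]
  [IsScalarTower F K L] [IsScalarTower F K Ω]

/-- Every point has a value. Proof: as `kc_val` (`Pe/Kt.lean`): `rd_prim` for the `x i` (factors `a i`), `hv_prim` for `(a i) ^ 2 t i`; the equations by `rd_qf`. -/
theorem kx_val (w : Place K L Ω) (P : Kx f L) : ∃ (P' : Kx f L) (Q : Kx f Ω), P.Rel P' ∧
    (∀ i, Rd w (P'.x i) (Q.x i)) ∧ ∀ i, Hv w (P'.t i) (Q.t i) := by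
  choose a u ha hu h1 using fun i => rd_prim w (P.hx i)
  obtain ⟨c, s, hc, hs, h3⟩ := hv_prim w (t := fun i => a i ^ 2 * P.t i) fun h0 => P.ht
    (funext fun i => (mul_eq_zero.1 (congrFun h0 i)).resolve_left (pow_ne_zero 2 (ha i)))
  have h3' : ∀ i, Hv w (c * a i ^ 2 * P.t i) (s i) := by
    intro i
    rw [mul_assoc]
    exact h3 i
  have hx : ∀ i, ((a i * (P.x i).1, a i * (P.x i).2) : L × L) ≠ 0 := by
    intro i h0
    exact P.hx i (Prod.ext ((mul_eq_zero.1 (congrArg Prod.fst h0)).resolve_left (ha i))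
      ((mul_eq_zero.1 (congrArg Prod.snd h0)).resolve_left (ha i)))
  have ht : (fun i => c * a i ^ 2 * P.t i) ≠ 0 := fun h0 => P.ht (funext fun i =>
    (mul_eq_zero.1 (congrFun h0 i)).resolve_left (mul_ne_zero hc (pow_ne_zero 2 (ha i))))
  have heq : ∀ i j, qf (f i) (a i * (P.x i).1, a i * (P.x i).2) * (c * a j ^ 2 * P.t j) ^ 2 =
      qf (f j) (a j * (P.x j).1, a j * (P.x j).2) * (c * a i ^ 2 * P.t i) ^ 2 := by
    intro i j
    rw [qf_mul, qf_mul]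
    linear_combination (a i ^ 4 * a j ^ 4 * c ^ 2) * P.eq i j
  refine ⟨⟨fun i => (a i * (P.x i).1, a i * (P.x i).2), fun i => c * a i ^ 2 * P.t i, hx, ht,
    heq⟩, ⟨u, s, hu, hs, fun i j => ?_⟩, ⟨a, c, ha, hc, fun i => rfl, fun i => rfl⟩, h1, h3'⟩
  have h5 := (rd_qf w (f i) (h1 i)).mul ((h3' j).pow 2)
  have h6 := (rd_qf w (f j) (h1 j)).mul ((h3' i).pow 2)
  rw [heq i j] at h5
  exact h5.uniq h6

omit [Algebra F K] [IsScalarTower F K L] [IsScalarTower F K Ω] in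
/-- The value is unique. Proof: as `kc_uniq`. -/
theorem kx_uniq (w : Place K L Ω) {P P' : Kx f L} {Q Q' : Kx f Ω} (h : P.Rel P')
    (h1 : ∀ i, Rd w (P.x i) (Q.x i)) (h2 : ∀ i, Hv w (P.t i) (Q.t i))
    (h1' : ∀ i, Rd w (P'.x i) (Q'.x i)) (h2' : ∀ i, Hv w (P'.t i) (Q'.t i)) : Q.Rel Q' := by
  obtain ⟨a, c, ha, hc, e1, e2⟩ := h
  have h1'' : ∀ i, Rd w (a i * (P.x i).1, a i * (P.x i).2) (Q'.x i) := by
    intro i
    rw [← e1 i]
    exact h1' i
  choose r hr hra using fun i => rd_unit w (ha i) (Q.hx i) (Q'.hx i) (h1 i) (h1'' i)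
  have h4 : ∀ i, Hv w (a i ^ 2 * P.t i) (r i ^ 2 * Q.t i) := fun i => ((hra i).pow 2).mul (h2 i)
  have hne : (fun i => r i ^ 2 * Q.t i) ≠ 0 := fun h0 => Q.ht (funext fun i =>
    (mul_eq_zero.1 (congrFun h0 i)).resolve_left (pow_ne_zero 2 (hr i)))
  have h5 : ∀ i, Hv w (c * (a i ^ 2 * P.t i)) (Q'.t i) := by
    intro i
    rw [← mul_assoc, ← e2 i]
    exact h2' i
  obtain ⟨q, hq, hqc⟩ := hv_unit w hc hne Q'.ht h4 h5
  refine ⟨r, q, hr, hq, fun i => (h1'' i).uniq ((h1 i).mul (hra i)), fun i => ?_⟩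
  rw [mul_assoc]
  exact (h5 i).uniq (hqc.mul (h4 i))

theorem kred_ex (w : Place K L Ω) (x : (Kum f).pt L) : ∃ y, (Kum f).red w x y := by
  induction x using Quotient.inductionOn with
  | h P =>
    obtain ⟨P', Q, h, h1, h2⟩ := kx_val w P
    exact ⟨Quotient.mk _ Q, P', Q, Quotient.sound h, rfl, h1, h2⟩

omit [Algebra F K] [IsScalarTower F K L] [IsScalarTower F K Ω] in
theorem kred_uniq (w : Place K L Ω) {x : (Kum f).pt L} {y y' : (Kum f).pt Ω}
    (h : (Kum f).red w x y) (h' : (Kum f).red w x y') : y = y' := by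
  obtain ⟨P, Q, rfl, rfl, h1, h2⟩ := h
  obtain ⟨P', Q', e, rfl, h1', h2'⟩ := h'
  exact Quotient.sound (kx_uniq w (Quotient.exact e) h1 h2 h1' h2')

end val

section up

variable {F : Type} [Field F] {n : ℕ} {f : Fin n → F[X]} {K E Ω : Type} [Field K] [Field E]
  [Field Ω] [Algebra K E] [Algebra K Ω] [Algebra F E] [Algebra F Ω]

/-- The value does not change at a place above. -/
theorem kred_up {w : Place K E Ω} {W : Place K (AlgebraicClosure E) Ω} (hW : Above w W)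
    {x : (Kum f).pt E} {y : (Kum f).pt Ω} (h : (Kum f).red w x y) :
    (Kum f).red W ((Kum f).map (IsScalarTower.toAlgHom F E (AlgebraicClosure E)) x) y := by
  obtain ⟨P, Q, rfl, rfl, h1, h2⟩ := h
  have key : ∀ {v : E × E} {u : Ω × Ω}, Rd w v u →
      Rd W (algebraMap E (AlgebraicClosure E) v.1, algebraMap E (AlgebraicClosure E) v.2) u := by
    rintro v u ⟨a₁, a₂, e₁, e₂⟩
    exact ⟨(hW.1 _).2 a₁, (hW.1 _).2 a₂, (hW.2 _ a₁ _).trans e₁, (hW.2 _ a₂ _).trans e₂⟩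
  refine ⟨P.mp (IsScalarTower.toAlgHom F E (AlgebraicClosure E)), Q, rfl, rfl,
    fun i => key (h1 i), fun i => ?_⟩
  obtain ⟨a₁, e₁⟩ := h2 i
  exact ⟨(hW.1 _).2 a₁, (hW.2 _ a₁ _).trans e₁⟩

/-- The composite of a place and an automorphism. -/
theorem kred_act {w w' : Place K E Ω} {σ : Ω ≃ₐ[F] Ω} (hV : w'.V = w.V)
    (hr : ∀ (a : E) (h : a ∈ w.V) (h' : a ∈ w'.V), w'.res ⟨a, h'⟩ = σ (w.res ⟨a, h⟩))
    {x : (Kum f).pt E} {y : (Kum f).pt Ω} (h : (Kum f).red w x y) :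
    (Kum f).red w' x ((Kum f).map (σ : Ω →ₐ[F] Ω) y) := by
  obtain ⟨P, Q, rfl, rfl, h1, h2⟩ := h
  have key : ∀ {v : E × E} {u : Ω × Ω}, Rd w v u → Rd w' v (σ u.1, σ u.2) := by
    rintro v u ⟨a₁, a₂, e₁, e₂⟩
    have b₁ : v.1 ∈ w'.V := by rw [hV]; exact a₁
    have b₂ : v.2 ∈ w'.V := by rw [hV]; exact a₂
    exact ⟨b₁, b₂, (hr _ a₁ b₁).trans (congrArg σ e₁), (hr _ a₂ b₂).trans (congrArg σ e₂)⟩
  refine ⟨P, Q.mp (σ : Ω →ₐ[F] Ω), rfl, rfl, fun i => key (h1 i), fun i => ?_⟩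
  obtain ⟨a₁, e₁⟩ := h2 i
  have b₁ : P.t i ∈ w'.V := by rw [hV]; exact a₁
  exact ⟨b₁, (hr _ a₁ b₁).trans (congrArg σ e₁)⟩

end up

end KM
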